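import Pool.Agent.L0h5.TU.Stm
import Pool.Agent.L0h71.TT.Cmb

/-!
# Project TU, module D: the unlinked sets (helper90)
-/

set_option autoImplicit false

namespace Pool.Agent.L0h90.TU

open Finset Pool.Agent.L0h5.TT Pool.Agent.L0h5.TU Pool.Agent.L0h5.TF
open Pool.Agent.W262.RK (ec)
open Pool.Agent.L0h71.TT (bp ortho_card psi_inv nd_xv')

/-- the coordinates of an index -/
def bx {J : Type} {k B : ℕ} (i : Ij J k B) : (Fin k → Bool) × (Fin k → Bool) := (i.2.1, i.2.2.1)

lemma link {J : Type} {k B : ℕ} (q : J → Fin 3) (i j : Ij J k B) :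
    Lj q i j = Lj q j i ↔ (q i.1 = q j.1 ∨ Even (bp (bx i) (bx j))) := by
  have h1 : ∀ i j : Ij J k B, Lj q i j =
      decide (Odd (nd (xxk (q j.1) j.2.2.1) (vvk (q i.1) i.2.1))) := fun i j => rfl
  rw [h1, h1, nd_xv', nd_xv']
  by_cases h : q i.1 = q j.1
  · have hodd : ∀ m : ℕ, ¬ Odd (2 * m) := by
      intro m hm
      obtain ⟨r, hr⟩ := hm
      omega
    rw [h]
    by_cases h0 : q j.1 = 0
    · simp [h0, hodd]
    · simp [h0]
  · have h' : ¬ q j.1 = q i.1 := fun e => h e.symm
    rw [if_neg (fun e => h e.1), if_neg h, if_neg (fun e => h' e.1), if_neg h', decide_eq_decide]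
    unfold bp bx
    rw [Nat.even_add, ← Nat.not_odd_iff_even, ← Nat.not_odd_iff_even, not_iff_not]
    constructor
    · intro e
      exact Or.inr e
    · rintro (e | e)
      · exact absurd e h
      · exact e

section
variable {J : Type} [Fintype J] [DecidableEq J]

/-- the product inequality -/
lemma prod_lt (q : J → Fin 3) (bad : J → Bool) (hC : CritA q bad) (s : Fin 3 → ℝ) (A : J → ℝ)
    (hA0 : ∀ j, 0 ≤ A j) (hA : ∀ j, A j ≤ if bad j = true then (1 + s (q j)) / 2 else s (q j))
    (hs : ∀ j j', q j ≠ q j' → s (q j) * s (q j') ≤ 1) :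
    (∀ j, A j = 1) ∨ ∏ j, A j < 1 := by
  by_cases hz : ∃ j, A j = 0
  · obtain ⟨j, hj⟩ := hz
    right
    rw [Finset.prod_eq_zero (mem_univ j) hj]
    norm_num
  · push Not at hz
    have hp : ∀ j, 0 < A j := fun j => lt_of_le_of_ne (hA0 j) (hz j).symm
    by_cases h1 : ∀ j, s (q j) ≤ 1
    · have hA1 : ∀ j, A j ≤ 1 := by
        intro j
        refine (hA j).trans ?_
        have := h1 j
        split_ifs <;> linarith
      by_cases h2 : ∀ j, A j = 1
      · exact Or.inl h2
      · right
        push Not at h2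
        obtain ⟨j, hj⟩ := h2
        have h3 := Finset.prod_lt_prod (s := univ) (f := A) (g := fun _ => (1 : ℝ))
          (fun i _ => hp i) (fun i _ => hA1 i) ⟨j, mem_univ j, lt_of_le_of_ne (hA1 j) hj⟩
        rwa [Finset.prod_const_one] at h3
    · right
      push Not at h1
      obtain ⟨j0, hj0⟩ := h1
      set a := q j0 with ha
      set S := s a with hS
      have hS0 : 0 < S := by linarith
      have hS1 : 1 / S < 1 := by rw [div_lt_one hS0]; exact hj0
      have hSp : 0 < 1 / S := by positivity
      set th : ℝ := (1 + 1 / S) / 2 with hth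
      have hth0 : 0 < th := by positivity
      have hth1 : th < 1 := by rw [hth]; linarith
      have hf : ∀ j, A j ≤ (if q j = a then S else 1) *
          (if q j ≠ a ∧ bad j = false then 1 / S else 1) * (if bad j = true then th else 1) := by
        intro j
        refine (hA j).trans ?_
        by_cases hq : q j = a
        · have hn : ¬ (q j ≠ a ∧ bad j = false) := fun h => h.1 hq
          by_cases hb : bad j = true
          · rw [if_pos hb, if_pos hb, if_pos hq, if_neg hn, hq, hth, ← hS]
            have : S * 1 * ((1 + 1 / S) / 2) = (1 + S) / 2 := by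
              field_simp
              ring
            rw [this]
          · rw [if_neg hb, if_neg hb, if_pos hq, if_neg hn, hq, ← hS]
            linarith
        · have h2 : s (q j) ≤ 1 / S := by
            rw [le_div_iff₀ hS0]
            exact hs j j0 hq
          rw [if_neg hq]
          by_cases hb : bad j = true
          · have hn : ¬ (q j ≠ a ∧ bad j = false) := by
              rintro ⟨-, h⟩
              rw [hb] at h
              exact absurd h (by decide)
            rw [if_pos hb, if_neg hn, if_pos hb, hth]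
            linarith
          · have hb' : bad j = false := by
              cases h : bad j
              · rfl
              · exact absurd h hb
            rw [if_neg hb, if_pos ⟨hq, hb'⟩, if_neg hb]
            linarith
      have hprod : ∏ j, A j ≤ S ^ (univ.filter (fun j => q j = a)).card *
          (1 / S) ^ (univ.filter (fun j => q j ≠ a ∧ bad j = false)).card *
          th ^ (univ.filter (fun j => bad j = true)).card := by
        refine (Finset.prod_le_prod (fun j _ => hA0 j) (fun j _ => hf j)).trans ?_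
        rw [Finset.prod_mul_distrib, Finset.prod_mul_distrib]
        simp only [Finset.prod_ite, Finset.prod_const, one_pow, mul_one]
        exact le_rfl
      refine hprod.trans_lt ?_
      have hthn : ∀ n : ℕ, th ^ n ≤ 1 := fun n => pow_le_one₀ hth0.le hth1.le
      have hSS : ∀ n : ℕ, S ^ n * (1 / S) ^ n = 1 := by
        intro n
        rw [← mul_pow, mul_one_div_cancel hS0.ne', one_pow]
      rcases hC a ⟨j0, rfl⟩ with h | ⟨h, jb, hjb⟩
      · obtain ⟨d, hd⟩ : ∃ d, (univ.filter (fun j => q j ≠ a ∧ bad j = false)).card =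
          (univ.filter (fun j => q j = a)).card + (d + 1) := by
          obtain ⟨d, hd⟩ := Nat.exists_eq_add_of_lt h
          exact ⟨d, by omega⟩
        rw [hd, pow_add, ← mul_assoc, hSS, one_mul]
        have h3 : (1 / S) ^ (d + 1) < 1 := pow_lt_one₀ hSp.le hS1 (by omega)
        calc (1 / S) ^ (d + 1) * th ^ (univ.filter (fun j => bad j = true)).card ≤
              (1 / S) ^ (d + 1) * 1 := mul_le_mul_of_nonneg_left (hthn _) (by positivity)
          _ < 1 := by rw [mul_one]; exact h3
      · rw [← h, hSS, one_mul]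
        apply pow_lt_one₀ hth0.le hth1
        intro h0
        rw [Finset.card_eq_zero] at h0
        have : jb ∈ univ.filter (fun j => bad j = true) := by simp [hjb]
        rw [h0] at this
        exact absurd this (notMem_empty _)

/-- positive numbers above with product less than one -/
lemma above (A : J → ℝ) (hA0 : ∀ j, 0 ≤ A j) (h : ∏ j, A j < 1) :
    ∃ A' : J → ℝ, (∀ j, 0 < A' j) ∧ (∀ j, A j ≤ A' j) ∧ ∏ j, A' j < 1 := by
  by_cases hz : ∃ j, A j = 0
  · obtain ⟨j0, hj0⟩ := hz
    set M : ℝ := ∏ j ∈ univ.erase j0, (A j + 1) with hM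
    have hMp : 0 < M := Finset.prod_pos fun j _ => by have := hA0 j; linarith
    refine ⟨fun j => if j = j0 then 1 / (2 * M) else A j + 1, fun j => ?_, fun j => ?_, ?_⟩
    · simp only []
      split_ifs
      · positivity
      · have := hA0 j; linarith
    · simp only []
      split_ifs with hj
      · rw [hj, hj0]; positivity
      · linarith
    · rw [← Finset.mul_prod_erase univ _ (mem_univ j0), if_pos rfl]
      have h2 : ∏ x ∈ univ.erase j0, (if x = j0 then 1 / (2 * M) else A x + 1) = M :=
        Finset.prod_congr rfl fun x hx => if_neg (ne_of_mem_erase hx)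
      rw [h2]
      have : 1 / (2 * M) * M = 1 / 2 := by field_simp
      rw [this]; norm_num
  · push Not at hz
    exact ⟨A, fun j => lt_of_le_of_ne (hA0 j) (hz j).symm, fun j => le_rfl, h⟩

/-- the weights `ρ` -/
lemma weights (A : J → ℝ) (hA0 : ∀ j, 0 ≤ A j) (h : ∏ j, A j < 1) :
    ∃ d : ℝ, 0 < d ∧ ∀ δ, 0 < δ → δ ≤ d → ∃ ρ : J → ℝ, (∀ a, 0 < ρ a) ∧
      ∑ a, A a * ρ a - ∑ a, psi δ (ρ a) < Fintype.card J := by
  obtain ⟨A', hp, hle, h1⟩ := above A hA0 h
  set L := Real.log (∏ j, A' j) with hL
  have hpp : 0 < ∏ j, A' j := Finset.prod_pos fun j _ => hp j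
  have hLn : L < 0 := Real.log_neg hpp h1
  have hLs : L = ∑ j, Real.log (A' j) := Real.log_prod fun j _ => (hp j).ne'
  set T := ∑ j, |Real.log (A' j)| with hT
  have hT0 : 0 ≤ T := Finset.sum_nonneg fun j _ => abs_nonneg _
  refine ⟨-L / (2 * (T + 1)), by apply div_pos <;> linarith, fun δ hδ hδd =>
    ⟨fun j => 1 / A' j, fun j => by have := hp j; positivity, ?_⟩⟩
  have h2 : ∑ a, A a * (1 / A' a) ≤ Fintype.card J := by
    calc ∑ a, A a * (1 / A' a) ≤ ∑ a : J, (1 : ℝ) := by
          apply Finset.sum_le_sum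
          intro a _
          rw [mul_one_div, div_le_one (hp a)]
          exact hle a
      _ = Fintype.card J := by simp
  have h3 : -∑ a, psi δ (1 / A' a) = L + δ * T := by
    rw [← Finset.sum_neg_distrib, hLs, hT, Finset.mul_sum, ← Finset.sum_add_distrib]
    exact Finset.sum_congr rfl fun a _ => psi_inv (hp a)
  have h4 : δ * T ≤ -L / 2 := by
    rw [le_div_iff₀ (by linarith)] at hδd
    nlinarith
  have h5 : ∑ a, A a * (1 / A' a) - ∑ a, psi δ (1 / A' a) =
      ∑ a, A a * (1 / A' a) + -∑ a, psi δ (1 / A' a) := sub_eq_add_neg _ _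
  rw [h5, h3]
  linarith

end

section
variable {J : Type} [Fintype J] [DecidableEq J] {k B : ℕ} (q : J → Fin 3) (bad : J → Bool)
  (U : Finset (Ij J k B))

/-- the coordinates of the indices of one class -/
def VV (a : Fin 3) : Finset ((Fin k → Bool) × (Fin k → Bool)) :=
  (U.filter (fun i => q i.1 = a)).image bx

/-- the exponent of one type -/
noncomputable def AA (j : J) : ℝ := ∑ i ∈ U.filter (fun i => i.1 = j), ej bad i

omit [Fintype J] [DecidableEq J] in
lemma wK_nonneg (c : Bool) (b x : Fin k → Bool) : 0 < wK c b x := by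
  unfold wK
  split_ifs <;> positivity

omit [Fintype J] in
lemma AA_nonneg (j : J) : 0 ≤ AA bad U j :=
  Finset.sum_nonneg fun i _ => div_nonneg (wK_nonneg _ _ _).le (Nat.cast_nonneg _)

omit [Fintype J] in
lemma AA_le (hB : 0 < B) (j : J) :
    AA bad U j ≤ ∑ v ∈ VV q U (q j), wK (bad j) v.1 v.2 := by
  have hBR : (0 : ℝ) < B := by exact_mod_cast hB
  have h1 : AA bad U j = ∑ p ∈ (U.filter (fun i => i.1 = j)).image (fun i => (bx i, i.2.2.2)),
      wK (bad j) p.1.1 p.1.2 / B := by
    rw [Finset.sum_image]
    · apply Finset.sum_congr rfl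
      intro i hi
      rw [ej, (mem_filter.mp hi).2]
      rfl
    · intro i hi i' hi' h
      rw [mem_coe, mem_filter] at hi hi'
      obtain ⟨i1, i2, i3, i4⟩ := i
      obtain ⟨j1, j2, j3, j4⟩ := i'
      simp only [bx, Prod.mk.injEq] at h hi hi' ⊢
      exact ⟨hi.2.trans hi'.2.symm, h.1.1, h.1.2, h.2⟩
  rw [h1]
  calc ∑ p ∈ (U.filter (fun i => i.1 = j)).image (fun i => (bx i, i.2.2.2)),
        wK (bad j) p.1.1 p.1.2 / (B : ℝ) ≤
      ∑ p ∈ VV q U (q j) ×ˢ (univ : Finset (Fin B)), wK (bad j) p.1.1 p.1.2 / (B : ℝ) := by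
        apply Finset.sum_le_sum_of_subset_of_nonneg
        · intro p hp
          obtain ⟨i, hi, rfl⟩ := mem_image.mp hp
          rw [mem_filter] at hi
          rw [mem_product]
          refine ⟨mem_image.mpr ⟨i, mem_filter.mpr ⟨hi.1, by rw [hi.2]⟩, rfl⟩, mem_univ _⟩
        · intro p _ _
          exact div_nonneg (wK_nonneg _ _ _).le hBR.le
    _ = ∑ v ∈ VV q U (q j), wK (bad j) v.1 v.2 := by
        rw [Finset.sum_product]
        apply Finset.sum_congr rfl
        intro v _
        simp only [Finset.sum_const, Finset.card_univ, Fintype.card_fin, nsmul_eq_mul]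
        field_simp

omit [Fintype J] in
lemma AA_le' (hB : 0 < B) (j : J) : AA bad U j ≤
    if bad j = true then (1 + ((VV q U (q j)).card : ℝ) / 2 ^ k) / 2
      else ((VV q U (q j)).card : ℝ) / 2 ^ k := by
  refine (AA_le q bad U hB j).trans ?_
  by_cases hb : bad j = true
  · rw [if_pos hb, hb]
    have h1 : ∀ v : (Fin k → Bool) × (Fin k → Bool), wK true v.1 v.2 =
        (if v = ((fun _ => false), (fun _ => false)) then (1 / 2 : ℝ) else 0) +
          (1 / 2) ^ (k + 1) := by
      intro v
      unfold wK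
      rw [if_pos rfl]
      by_cases hv : v = ((fun _ => false), (fun _ => false))
      · rw [if_pos hv, if_pos ⟨by rw [hv], by rw [hv]⟩]
      · rw [if_neg hv, if_neg (fun h => hv (Prod.ext h.1 h.2)), zero_add]
    rw [Finset.sum_congr rfl fun v _ => h1 v, Finset.sum_add_distrib, Finset.sum_const,
      nsmul_eq_mul, Finset.sum_ite_eq']
    have h2 : (if ((fun _ => false), (fun _ => false)) ∈ VV q U (q j) then (1 / 2 : ℝ) else 0) ≤
        1 / 2 := by split_ifs <;> norm_num
    have h3 : ((VV q U (q j)).card : ℝ) * (1 / 2) ^ (k + 1) =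
        ((VV q U (q j)).card : ℝ) / 2 ^ k / 2 := by
      rw [pow_succ, one_div, inv_pow]
      ring
    rw [h3]
    linarith
  · have hb' : bad j = false := by
      cases h : bad j
      · rfl
      · exact absurd h hb
    rw [if_neg hb, hb']
    unfold wK
    simp only [Bool.false_eq_true, if_false, Finset.sum_const, nsmul_eq_mul]
    rw [one_div, inv_pow]
    exact le_of_eq rfl

omit [DecidableEq J] in
/-- unlinked sets -/
lemma key [DecidableEq J] (hB : 0 < B) (hC : CritA q bad)
    (hU : ∀ i ∈ U, ∀ j ∈ U, Lj q i j = Lj q j i) :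
    (∀ j, AA bad U j = 1) ∨ ∏ j, AA bad U j < 1 := by
  apply prod_lt q bad hC (fun a => ((VV q U a).card : ℝ) / 2 ^ k) (AA bad U) (AA_nonneg bad U)
    (AA_le' q bad U hB)
  · intro j j' hjj
    have h1 := ortho_card (VV q U (q j)) (VV q U (q j')) (by
      intro a ha b hb
      obtain ⟨i, hi, rfl⟩ := mem_image.mp ha
      obtain ⟨i', hi', rfl⟩ := mem_image.mp hb
      rw [mem_filter] at hi hi'
      rcases (link q i i').mp (hU i hi.1 i' hi'.1) with h | h
      · exact absurd (hi.2.symm.trans (h.trans hi'.2)) hjj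
      · exact h)
    have h2 : ((VV q U (q j)).card : ℝ) * ((VV q U (q j')).card : ℝ) ≤ 4 ^ k := by
      exact_mod_cast h1
    rw [div_mul_div_comm, ← mul_pow, div_le_one (by positivity)]
    norm_num
    exact h2

omit [Fintype J] in
lemma AA_insert (i : Ij J k B) (hi : i ∉ U) (j : J) :
    AA bad (insert i U) j = AA bad U j + if i.1 = j then ej bad i else 0 := by
  unfold AA
  rw [Finset.filter_insert]
  split_ifs with h
  · rw [Finset.sum_insert (fun h' => hi (mem_filter.mp h').1), add_comm]
  · rw [add_zero]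

end

/-- **D** -/
theorem s2_cmb : S2_CMB := by
  intro J _ _ _ k B q bad hk hB hC
  have hBR : (0 : ℝ) < B := by exact_mod_cast hB
  have hd : ∀ U : Finset (Ij J k B), ∃ d : ℝ, 0 < d ∧ (∏ j, AA bad U j < 1 →
      ∀ δ, 0 < δ → δ ≤ d → ∃ ρ : J → ℝ, (∀ a, 0 < ρ a) ∧
        ∑ a, AA bad U a * ρ a - ∑ a, psi δ (ρ a) < Fintype.card J) := by
    intro U
    by_cases h : ∏ j, AA bad U j < 1
    · obtain ⟨d, h1, h2⟩ := weights (AA bad U) (AA_nonneg bad U) h
      exact ⟨d, h1, fun _ => h2⟩
    · exact ⟨1, one_pos, fun h' => absurd h' h⟩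
  choose d hd0 hd1 using hd
  have hne : (univ : Finset (Finset (Ij J k B))).Nonempty := ⟨∅, mem_univ _⟩
  refine ⟨min (1 / 2) (univ.inf' hne d), lt_min (by norm_num) ?_, min_le_left _ _, ?_⟩
  · rw [Finset.lt_inf'_iff]
    exact fun U _ => hd0 U
  intro δ hδ hδ0 U hU
  have hsum : ∀ ρ : J → ℝ, ∑ i ∈ U, ej bad i * ρ i.1 = ∑ j, AA bad U j * ρ j := by
    intro ρ
    rw [← Finset.sum_fiberwise_of_maps_to (s := U) (t := univ) (g := fun i => i.1)
      (fun i _ => mem_univ _)]
    apply Finset.sum_congr rfl
    intro j _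
    rw [AA, Finset.sum_mul]
    exact Finset.sum_congr rfl fun i hi => by rw [(mem_filter.mp hi).2]
  rcases key q bad U hB hC hU with h | h
  · left
    constructor
    · have h1 := hsum (fun _ => 1)
      simp only [mul_one, h] at h1
      rw [h1]
      simp
    · intro i hi
      by_contra hcon
      push Not at hcon
      have hun : ∀ a ∈ insert i U, ∀ b ∈ insert i U, Lj q a b = Lj q b a := by
        intro a ha b hb
        rcases mem_insert.mp ha with ha' | ha'
        · rcases mem_insert.mp hb with hb' | hb'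
          · rw [ha', hb']
          · rw [ha']; exact (hcon b hb').symm
        · rcases mem_insert.mp hb with hb' | hb'
          · rw [hb']; exact hcon a ha'
          · exact hU a ha' b hb'
      have h1 : ∀ j, AA bad (insert i U) j = 1 + if i.1 = j then ej bad i else 0 := by
        intro j
        rw [AA_insert bad U i hi, h]
      have hpos : 0 < ej bad i := div_pos (wK_nonneg _ _ _) hBR
      have h2 : ∏ j, AA bad (insert i U) j = 1 + ej bad i := by
        rw [Finset.prod_congr rfl fun j _ => h1 j, Finset.prod_eq_single i.1]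
        · rw [if_pos rfl]
        · intro j _ hj
          rw [if_neg (fun h => hj h.symm), add_zero]
        · intro h'; exact absurd (mem_univ _) h'
      rcases key q bad (insert i U) hB hC hun with h3 | h3
      · have h4 := h3 i.1
        rw [h1, if_pos rfl] at h4
        linarith
      · rw [h2] at h3
        linarith
  · right
    obtain ⟨ρ, hρ, hlt⟩ := hd1 U h δ hδ
      (hδ0.trans ((min_le_right _ _).trans (Finset.inf'_le _ (mem_univ U))))
    refine ⟨ρ, hρ, ?_⟩
    rw [hsum]
    exact hlt

end Pool.Agent.L0h90.TU
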