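import Pool.Agent.L0h5.TU.AvgU

/-!
# Project TU: the average over the window, with weights (helper90)
-/

set_option autoImplicit false

namespace Pool.Agent.L0h90.TU

open Finset Pool.Agent.W262.RK Pool.Agent.L0h5.TH Pool.Agent.L0h5.TU
open Pool.Agent.L0h5.TF hiding oo QF
open Pool.Agent.L0h5.AG (gg)
open Pool.Agent.L0h5.TT (vvk xxk nd_xv psi)

/-- the local average of a type, with weights -/
noncomputable def lamRw {J : Type} {k : ℕ} (ω : J → ℝ) (q : J → Fin 3) (evn : J → Bool)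
    (kap : J → ℕ → Fin 3 → ℤ) (R : J → ℕ → Finset ℕ) (j : J) (p : ℕ) (v h : Vk k) : ℝ :=
  ω j * lamR q evn kap R j p v h

open Classical in
/-- the average over the window, with weights -/
def S2_AVGW : Prop := ∀ (J : Type) [Fintype J] [DecidableEq J] [Nonempty J] (ω : J → ℝ)
  (q : J → Fin 3) (evn sp : J → Bool), (∀ j, 0 ≤ ω j) → (∀ j, ω j ≤ 1) →
  CritA q (fun j => evn j && !(sp j)) → ∀ (k B0 c : ℕ), 1 ≤ k →
  ∃ δ0 : ℝ, 0 < δ0 ∧ δ0 ≤ 1 / 2 ∧ ∃ z0 : ℕ, 8 ≤ z0 ∧ ∀ z, z0 ≤ z →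
    ∀ (kap : J → ℕ → Fin 3 → ℤ) (R : J → ℕ → Finset ℕ) (Cj : ℝ),
    (∀ p : ℕ, p.Prime → z < p → ∑ j, (R j p).card ≤ B0) →
    (∀ (j : J) (y : ℕ), z < y → |∑ p ∈ PS z y, ω j * (((R j p).card : ℝ) / ((p : ℝ) - c)) -
      Real.log (Real.log y)| ≤ Cj) →
    (∀ (j : J) (y : ℕ), z < y → |∑ p ∈ PS z y, ω j * (((Rz kap R j p).card : ℝ) / ((p : ℝ) - c)) -
      th (sp j) * Real.log (Real.log y)| ≤ Cj) →
    ∃ C : ℝ, 0 ≤ C ∧ ∀ y, z < y →
      ∑ s ∈ (Tup J z y).filter (fun s => WinJ δ0 (Pool.Agent.L0h5.TT.LL y) (omJ s)),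
        GT (lamRw (k := k) ω q evn kap R) s * ∏ j, gw 1 c (s j) ≤
          C * (Real.log y) ^ (Fintype.card J)

/-- the weighted asymptotic formula for one type -/
lemma asymW {J : Type} [Fintype J] {ω : ℝ} {th0 : ℝ} {c z : ℕ} {j : J}
    {kap : J → ℕ → Fin 3 → ℤ} {R : J → ℕ → Finset ℕ} {Cj : ℝ} {y : ℕ}
    (H1 : |∑ p ∈ PS z y, ω * (((R j p).card : ℝ) / ((p : ℝ) - c)) - Real.log (Real.log y)| ≤ Cj)
    (H2 : |∑ p ∈ PS z y, ω * (((Rz kap R j p).card : ℝ) / ((p : ℝ) - c)) -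
        th0 * Real.log (Real.log y)| ≤ Cj)
    (F : Bool → ℝ) (hM : |F true| ≤ 1) (hM' : |F false - F true| ≤ 1) :
    |∑ p ∈ PS z y, (ω * ∑ r ∈ R j p, F (sg0 p (kap j r 0))) / ((p : ℝ) - c) -
      (F true + (F false - F true) * th0) * Real.log (Real.log y)| ≤ 2 * 1 * Cj := by
  have hCj : 0 ≤ Cj := (abs_nonneg _).trans H1
  have h1 : ∑ p ∈ PS z y, (ω * ∑ r ∈ R j p, F (sg0 p (kap j r 0))) / ((p : ℝ) - c) =
      F true * ∑ p ∈ PS z y, ω * (((R j p).card : ℝ) / ((p : ℝ) - c)) +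
      (F false - F true) *
        ∑ p ∈ PS z y, ω * (((Rz kap R j p).card : ℝ) / ((p : ℝ) - c)) := by
    rw [mul_sum, mul_sum, ← sum_add_distrib]
    refine sum_congr rfl fun p _ => ?_
    rw [sum_s]
    ring
  rw [h1]
  rw [show ∀ a b c d e f : ℝ, a * b + c * d - (a + c * e) * f =
    a * (b - f) + c * (d - e * f) from fun a b c d e f => by ring]
  refine (abs_add_le _ _).trans ?_
  rw [abs_mul, abs_mul]
  calc _ ≤ 1 * Cj + 1 * Cj := add_le_add (mul_le_mul hM H1 (abs_nonneg _) zero_le_one)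
        (mul_le_mul hM' H2 (abs_nonneg _) zero_le_one)
    _ = _ := by ring

/-- **F** the average over the window, with weights -/
theorem avgW (hAG : S2_AG) (hEXP : S2_EXP) (hLAM : S2_LAM) (hCMB : S2_CMB) : S2_AVGW := by
  classical
  intro J _ _ _ ω q evn sp hω0 hω1 hcrit k B0 c hk
  obtain ⟨B, hBdef⟩ : ∃ B : ℕ, B = 2 * B0 + 2 := ⟨_, rfl⟩
  have hB : 0 < B := by omega
  have hBr : (0 : ℝ) < B := by exact_mod_cast hB
  have hB1 : (1 : ℝ) ≤ B := by exact_mod_cast hB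
  obtain ⟨δ0, hδ0, hδ2, hC⟩ := hCMB J k B q (fun j => evn j && !(sp j)) hk hB hcrit
  obtain ⟨z0, hz0⟩ := hAG (Ij J k B) J (fun i => i.1) (ej (fun j => evn j && !(sp j))) (Lj q) c
    (Fintype.card J) δ0 (fun i => div_pos (wK_pos _ _ _) hBr) (Lj_self q) (Nat.cast_nonneg _) hδ0
    (by linarith) (fun U hU => hC δ0 hδ0 le_rfl U hU)
  refine ⟨δ0, hδ0, hδ2, z0 + 2 * c + 8, by omega, fun z hz kap R Cj hR0 H1 H2 => ?_⟩
  have hpc : ∀ p : ℕ, z < p → (0 : ℝ) < (p : ℝ) - c := by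
    intro p hp
    have : (2 * c + 3 : ℝ) ≤ p := by exact_mod_cast (by omega : 2 * c + 3 ≤ p)
    have hc0 : (0 : ℝ) ≤ c := Nat.cast_nonneg c
    linarith
  choose cf hcf1 hcf2 hcf3 using fun (j : J) (r p : ℕ) => hLAM k (q j) (evn j) (kap j r) p
  have hcfb : ∀ j r p b x, |cf j r p b x| ≤ FK (evn j) b x (sg0 p (kap j r 0)) := by
    intro j r p b x
    unfold FK
    by_cases h : (evn j && sg0 p (kap j r 0)) = true
    · rw [if_pos h]
      exact hcf2 j r p h b x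
    · rw [if_neg h]
      exact hcf3 j r p h b x
  obtain ⟨w, hw⟩ : ∃ w : J → (Fin k → Bool) → (Fin k → Bool) → ℕ → ℝ,
      w = fun j b x p => ω j * ∑ r ∈ R j p, cf j r p b x := ⟨_, rfl⟩
  have hwb' : ∀ j b x p, |w j b x p| ≤
      ω j * ∑ r ∈ R j p, FK (evn j) b x (sg0 p (kap j r 0)) := by
    intro j b x p
    rw [hw]
    simp only
    rw [abs_mul, abs_of_nonneg (hω0 j)]
    exact mul_le_mul_of_nonneg_left
      ((abs_sum_le_sum_abs _ _).trans (sum_le_sum fun r _ => hcfb j r p b x)) (hω0 j)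
  have hwb : ∀ j b x p, |w j b x p| ≤ ∑ r ∈ R j p, FK (evn j) b x (sg0 p (kap j r 0)) := by
    intro j b x p
    exact (hwb' j b x p).trans (mul_le_of_le_one_left
      (sum_nonneg fun r _ => FK_nonneg _ _ _ _) (hω1 j))
  have hCj : 0 ≤ Cj := (abs_nonneg _).trans (H1 (Classical.arbitrary J) (z + 1) (by omega))
  obtain ⟨C, hC'⟩ := hz0 z (by omega) (wj w c) (2 * 1 * Cj)
    (fun i p hp hpz => by
      have h1 : |w i.1 i.2.1 i.2.2.1 p| ≤ B0 := by
        refine (hwb _ _ _ _).trans ?_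
        calc ∑ r ∈ R i.1 p, FK (evn i.1) i.2.1 i.2.2.1 (sg0 p (kap i.1 r 0)) ≤
            ∑ _r ∈ R i.1 p, (1 : ℝ) := sum_le_sum fun r _ => FK_le _ _ _ _
          _ = (R i.1 p).card := by rw [sum_const, nsmul_eq_mul, mul_one]
          _ ≤ _ := by
              have h2 : (R i.1 p).card ≤ ∑ j, (R j p).card :=
                single_le_sum (f := fun j => (R j p).card) (fun _ _ => Nat.zero_le _) (mem_univ i.1)
              exact_mod_cast h2.trans (hR0 p hp hpz)
      have h2 := hpc p hpz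
      unfold wj
      rw [abs_div, abs_of_pos (mul_pos hBr h2), ← div_div]
      refine div_le_div_of_nonneg_right ?_ h2.le
      rw [div_le_iff₀ hBr]
      refine h1.trans ?_
      rw [hBdef]
      push_cast
      linarith)
    (fun i y hy => by
      have h0 := asymW (H1 i.1 y hy) (H2 i.1 y hy)
        (fun s => FK (evn i.1) i.2.1 i.2.2.1 s)
        (by
          show |FK (evn i.1) i.2.1 i.2.2.1 true| ≤ 1
          rw [abs_of_nonneg (FK_nonneg _ _ _ _)]
          exact FK_le _ _ _ _)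
        (by
          show |FK (evn i.1) i.2.1 i.2.2.1 false - FK (evn i.1) i.2.1 i.2.2.1 true| ≤ 1
          have h1 := FK_nonneg (evn i.1) i.2.1 i.2.2.1 false
          have h2 := FK_nonneg (evn i.1) i.2.1 i.2.2.1 true
          have h3 := FK_le (evn i.1) i.2.1 i.2.2.1 false
          have h4 := FK_le (evn i.1) i.2.1 i.2.2.1 true
          rw [abs_le]
          constructor <;> linarith)
      simp only [FK_th] at h0
      have h1 : ∑ p ∈ PS z y, |wj w c i p| ≤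
          (∑ p ∈ PS z y, (ω i.1 * ∑ r ∈ R i.1 p,
            FK (evn i.1) i.2.1 i.2.2.1 (sg0 p (kap i.1 r 0))) / ((p : ℝ) - c)) / B := by
        rw [sum_div]
        refine sum_le_sum fun p hp => ?_
        have h2 := hpc p (mem_PS.1 hp).1.1
        unfold wj
        rw [abs_div, abs_of_pos (mul_pos hBr h2), div_div, mul_comm ((p : ℝ) - c)]
        exact div_le_div_of_nonneg_right (hwb' _ _ _ _) (mul_pos hBr h2).le
      refine h1.trans ?_
      rw [div_le_iff₀ hBr]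
      have h2 := (abs_le.1 h0).2
      have h3 : ej (fun j => evn j && !(sp j)) i * Real.log (Real.log y) * B =
          wK (evn i.1 && !(sp i.1)) i.2.1 i.2.2.1 * Real.log (Real.log y) := by
        unfold ej
        field_simp
      rw [add_mul, h3]
      have h4 : 2 * 1 * Cj ≤ 2 * 1 * Cj * B := le_mul_of_one_le_right (by linarith) hB1
      linarith)
  refine ⟨|C|, abs_nonneg _, fun y hy => ?_⟩
  obtain ⟨F, hF⟩ : ∃ F : (J → ℕ) → ℝ,
      F = fun n => if WinJ δ0 (Pool.Agent.L0h5.TT.LL y) n then 1 else 0 := ⟨_, rfl⟩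
  have h1 := hC' y hy F (fun n => by rw [hF]; simp only; split_ifs <;> simp)
    (fun n hn => by
      by_contra hcon
      rw [hF] at hn
      simp only [if_neg hcon] at hn
      exact hn rfl)
  rw [← hEXP J k B c z y q (lamRw ω q evn kap R) w hB (fun j p _ _ v h => by
    unfold lamRw lamR
    rw [sum_congr rfl fun r _ => hcf1 j r p v h, sum_comm, mul_sum]
    refine sum_congr rfl fun b _ => ?_
    rw [sum_comm, mul_sum]
    refine sum_congr rfl fun x _ => ?_
    rw [hw]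
    split_ifs
    · rw [← sum_mul, mul_assoc]
    · rw [sum_const_zero, mul_zero]) F] at h1
  have h2 : ∑ s ∈ (Tup J z y).filter (fun s => WinJ δ0 (Pool.Agent.L0h5.TT.LL y) (omJ s)),
      GT (lamRw (k := k) ω q evn kap R) s * ∏ j, gw 1 c (s j) =
      ∑ s ∈ Tup J z y, F (omJ s) * (GT (lamRw (k := k) ω q evn kap R) s * ∏ j, gw 1 c (s j)) := by
    rw [sum_filter]
    refine sum_congr rfl fun s _ => ?_
    rw [hF]
    simp only
    split_ifs <;> simp
  rw [h2]
  have h3 : 0 ≤ (Real.log y) ^ (Fintype.card J) := pow_nonneg (Real.log_natCast_nonneg y) _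
  rw [Real.rpow_natCast] at h1
  exact (le_abs_self _).trans (h1.trans (mul_le_mul_of_nonneg_right (le_abs_self C) h3))

end Pool.Agent.L0h90.TU
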