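import Pool.Agent.L0h93.TU.Trv
import Pool.Agent.L0h5.TT.Fib

/-!
# Project TU: the hypothesis of the core from the bounds of E2 and G (helper90)
-/

set_option autoImplicit false

namespace Pool.Agent.L0h90.TU

open Finset Pool.Agent.W262.RK Pool.Agent.L0h5.TF Pool.Agent.L0h5.TU
open Pool.Agent.L0h5.TT (LL)
open Pool.Agent.L0h93.TU (GT_nonneg lt_Tup)
open Pool.Agent.L0h5.TT (mem_TupG)

section

variable {J : Type} [Fintype J] [DecidableEq J]

open Classical in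
/-- the weight of the numbers of the primes -/
noncomputable def WX (M : ℕ) (δ : ℝ) (X : ℕ) (n : J → ℕ) : ℝ :=
  (if WinJ δ (LL X) n then 1 else 0) + ((Real.log X) ^ M)⁻¹

omit [Fintype J] [DecidableEq J] in
lemma WX_nonneg (M : ℕ) (δ : ℝ) (X : ℕ) (n : J → ℕ) : 0 ≤ WX M δ X n := by
  unfold WX
  have h1 : 0 ≤ Real.log (X : ℝ) := Real.log_natCast_nonneg X
  split_ifs <;> positivity

variable {St : Type} {k c z : ℕ} {Sp : ℕ → Finset St}
  {LS : St → ℕ → Bool → Bool → Bool → Bool → Prop} {ty : St → J}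
  {lam : J → ℕ → Vk k → Vk k → ℝ}

open Classical in
/-- the hypothesis of the core -/
lemma core_hyp (H : Hl c z Sp LS ty lam) (hz : 8 ≤ z) (hcz : 2 * c + 2 ≤ z) {N M : ℕ}
    {δ lm C1 C2 : ℝ} (hC1 : 0 ≤ C1) (hC2 : 0 ≤ C2)
    (h1 : ∀ X y : ℕ, z < y → y ≤ X → (Real.log X) ^ (1 - δ) ≤ Real.log y →
      ∑ s ∈ (Tup J z y).filter (fun s => WinJ δ (LL X) (omJ s)),
        GT lam s * (∏ j, gw 1 c (s j)) * (∏ j, (s j : ℝ)) ^ (lm / Real.log y) ≤
          C1 * (Real.log y) ^ N)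
    (h2 : ∀ y, z < y → ∑ s ∈ Tup J z y, GT lam s * (∏ j, gw 1 c (s j)) *
      (∏ j, (s j : ℝ)) ^ (lm / Real.log y) ≤ C2 * (Real.log y) ^ M)
    (X y : ℕ) (hzy : z < y) (hyX : y ≤ X) :
    ∑ s ∈ Tup J z y, WX M δ X (omJ s) * (GT lam s * (∏ j, gw 1 c (s j)) *
      (∏ j, (s j : ℝ)) ^ (lm / Real.log y)) ≤
      (C1 + 2 * C2) * (Real.log y) ^ N * (if (Real.log X) ^ (1 - δ) ≤ Real.log y then 1
        else (Real.log X) ^ M) := by
  set f : (J → ℕ) → ℝ := fun τ => GT lam τ * (∏ j, gw 1 c (τ j)) *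
    (∏ j, (τ j : ℝ)) ^ (lm / Real.log y) with hf
  have hf0 : ∀ τ ∈ Tup J z y, 0 ≤ f τ := by
    intro τ hτ
    refine mul_nonneg (mul_nonneg (GT_nonneg H τ (lt_Tup hτ)) (prod_nonneg fun j _ => ?_)) ?_
    · exact Pool.Agent.W405.RK2.gw1_nonneg (by omega) (Nat.dvd_of_mem_divisors ((mem_TupG.1 hτ).1 j))
    · exact Real.rpow_nonneg (prod_nonneg fun j _ => Nat.cast_nonneg _) _
  have hly : 1 ≤ Real.log y := Pool.Agent.W262.RK.AT.one_le_log (z := z) (by omega) hzy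
  have hlX : Real.log y ≤ Real.log X :=
    Real.log_le_log (by exact_mod_cast (by omega : 0 < y)) (by exact_mod_cast hyX)
  have hlX1 : 1 ≤ Real.log X := hly.trans hlX
  have hly3 : 1 ≤ (Real.log y) ^ N := one_le_pow₀ hly
  have hXM : 1 ≤ (Real.log X) ^ M := one_le_pow₀ hlX1
  have hyM : (Real.log y) ^ M ≤ (Real.log X) ^ M := pow_le_pow_left₀ (by linarith) hlX M
  have hsplit : ∑ τ ∈ Tup J z y, WX M δ X (omJ τ) * f τ =
      ∑ τ ∈ (Tup J z y).filter (fun s => WinJ δ (LL X) (omJ s)), f τ +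
        ((Real.log X) ^ M)⁻¹ * ∑ τ ∈ Tup J z y, f τ := by
    rw [sum_filter, mul_sum, ← sum_add_distrib]
    refine sum_congr rfl fun τ _ => ?_
    unfold WX
    split_ifs <;> ring
  have hrest : ((Real.log X) ^ M)⁻¹ * ∑ τ ∈ Tup J z y, f τ ≤ C2 := by
    calc ((Real.log X) ^ M)⁻¹ * ∑ τ ∈ Tup J z y, f τ
        ≤ ((Real.log X) ^ M)⁻¹ * (C2 * (Real.log X) ^ M) := by
          refine mul_le_mul_of_nonneg_left ((h2 y hzy).trans ?_) (by positivity)
          exact mul_le_mul_of_nonneg_left hyM hC2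
      _ = C2 := by field_simp
  have hC23 : C2 ≤ C2 * (Real.log y) ^ N := le_mul_of_one_le_right hC2 hly3
  rw [hsplit]
  split_ifs with hc
  · have h3 := h1 X y hzy hyX hc
    rw [mul_one]
    have : 0 ≤ C2 * (Real.log y) ^ N := by positivity
    linarith
  · have h3 : ∑ τ ∈ (Tup J z y).filter (fun s => WinJ δ (LL X) (omJ s)), f τ ≤
        C2 * (Real.log X) ^ M := by
      calc _ ≤ ∑ τ ∈ Tup J z y, f τ :=
            sum_le_sum_of_subset_of_nonneg (filter_subset _ _) fun τ hτ _ => hf0 τ hτ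
        _ ≤ C2 * (Real.log y) ^ M := h2 y hzy
        _ ≤ _ := mul_le_mul_of_nonneg_left hyM hC2
    have h4 : C2 * (Real.log X) ^ M ≤ C2 * (Real.log y) ^ N * (Real.log X) ^ M :=
      mul_le_mul_of_nonneg_right hC23 (by positivity)
    have h5 : C2 ≤ C2 * (Real.log y) ^ N * (Real.log X) ^ M :=
      hC23.trans (le_mul_of_one_le_right (by positivity) hXM)
    have h6 : 0 ≤ C1 * (Real.log y) ^ N * (Real.log X) ^ M := by positivity
    calc _ ≤ C2 * (Real.log X) ^ M + C2 := add_le_add h3 hrest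
      _ ≤ C2 * (Real.log y) ^ N * (Real.log X) ^ M + C2 * (Real.log y) ^ N * (Real.log X) ^ M +
          C1 * (Real.log y) ^ N * (Real.log X) ^ M := by linarith
      _ = _ := by ring

omit [Fintype J] [DecidableEq J] in
/-- the weight at a typical point -/
lemma one_le_WX {M z : ℕ} {δ B CB : ℝ} (hB1 : 1 ≤ B) (hCB1 : 1 ≤ CB)
    (hBB : ∀ (Λ : ℝ) (E : ℕ), 0 ≤ Λ → δ * Λ ≤ Λ ^ (3 / 4 : ℝ) + z + E →
      Real.exp (M * Λ) ≤ CB * B ^ E) {X : ℕ} (hX : 1 ≤ Real.log X) {n m : J → ℕ} {E : ℕ}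
    (hnm : ∀ j, n j ≤ m j ∧ m j ≤ n j + (z + E))
    (hm : ∀ j, |((m j : ℕ) : ℝ) - LL X| ≤ (LL X) ^ (3 / 4 : ℝ)) :
    1 ≤ CB * B ^ E * WX M δ X n := by
  have hBE : 1 ≤ B ^ E := one_le_pow₀ hB1
  have hlX0 : 0 < Real.log X := by linarith
  have hCE : 1 ≤ CB * B ^ E := one_le_mul_of_one_le_of_one_le hCB1 hBE
  unfold WX
  by_cases hw : WinJ δ (LL X) n
  · rw [if_pos hw]
    have h1 : 0 ≤ ((Real.log X) ^ M)⁻¹ := by positivity
    exact one_le_mul_of_one_le_of_one_le hCE (by linarith)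
  · rw [if_neg hw, zero_add]
    have hΛ0 : 0 ≤ LL X := Real.log_nonneg hX
    have h1 : Real.exp (M * LL X) ≤ CB * B ^ E := by
      apply hBB _ _ hΛ0
      unfold WinJ at hw
      push Not at hw
      obtain ⟨c, hc⟩ := hw
      obtain ⟨c1, c2⟩ := hnm c
      have c3 := abs_le.1 (hm c)
      have c1' : (n c : ℝ) ≤ (m c : ℝ) := by exact_mod_cast c1
      have c2' : (m c : ℝ) ≤ (n c : ℝ) + (z + E) := by exact_mod_cast c2
      have hz0 : (0 : ℝ) ≤ z := Nat.cast_nonneg z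
      have hE0 : (0 : ℝ) ≤ E := Nat.cast_nonneg E
      by_cases h2 : (1 - δ) * LL X ≤ n c
      · have h3 := hc h2
        linarith [c3.1, c3.2]
      · push Not at h2
        linarith [c3.1, c3.2]
    have h2 : Real.exp (M * LL X) = (Real.log X) ^ M := by
      unfold Pool.Agent.L0h5.TT.LL
      rw [Real.exp_nat_mul, Real.exp_log hlX0]
    rw [h2] at h1
    rw [← div_eq_mul_inv, le_div_iff₀ (by positivity), one_mul]
    exact h1

end

end Pool.Agent.L0h90.TU
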