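import Pool.Agent.L0h90.TU.F4c

/-!
# Project TU, module M5: the curves with a point of order 4 (helper90)
-/

set_option autoImplicit false
set_option linter.unusedSectionVars false

namespace Pool.Agent.L0h90.TU

open Finset Filter Pool.Agent.L0h5.TE Pool.Agent.L0h5.T4 Pool.Agent.L0h5.TU Pool.Agent.L0h5.T8
open Pool.Agent.L0h5.TT (LL)

lemma LL_top : Tendsto (fun T : ℕ => (LL (T + 1)) ^ (1 / 2 : ℝ)) atTop atTop := by
  have hL : Tendsto LL atTop atTop :=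
    Real.tendsto_log_atTop.comp (Real.tendsto_log_atTop.comp tendsto_natCast_atTop_atTop)
  have h1 : Tendsto (fun T : ℕ => LL (T + 1)) atTop atTop := hL.comp (tendsto_add_atTop_nat 1)
  exact (tendsto_rpow_atTop (by norm_num)).comp h1

/-- the boxes -/
lemma bxt4 (h : ∀ k : ℕ, ∃ C : ℝ, ∀ X : ℕ, 1 ≤ X →
      ∑ t ∈ @Finset.filter (ℤ × ℤ) (Typ4 X) (Classical.decPred _) (T4X X),
        ((2 : ℝ) ^ rk4 t) ^ k ≤ C * (X : ℝ) ^ 3) : BXT (fun T => T4X (T + 1)) 3 rk4 := by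
  classical
  obtain ⟨X0, h16, hX0⟩ := typ4_card
  refine ⟨fun T => @Finset.filter (ℤ × ℤ) (Typ4 (T + 1)) (Classical.decPred _) (T4X (T + 1)),
    fun T => filter_subset _ _, ?_, fun k => ?_⟩
  · have hz : Tendsto (fun T : ℕ => (1152 : ℝ) / (LL (T + 1)) ^ (1 / 2 : ℝ)) atTop (nhds 0) :=
      Tendsto.div_atTop tendsto_const_nhds LL_top
    refine squeeze_zero' (Eventually.of_forall fun T => by positivity) ?_ hz
    filter_upwards [eventually_ge_atTop X0, LL_top.eventually_gt_atTop 0] with T hT hL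
    have h1 := hX0 (T + 1) (by omega)
    have h2 : T4X (T + 1) \ @Finset.filter (ℤ × ℤ) (Typ4 (T + 1)) (Classical.decPred _)
        (T4X (T + 1)) = @Finset.filter (ℤ × ℤ) (fun t => ¬ Typ4 (T + 1) t) (Classical.decPred _)
        (T4X (T + 1)) := by
      ext t
      simp only [Finset.mem_sdiff, Finset.mem_filter]
      tauto
    rw [h2]
    have hT1 : (1 : ℝ) ≤ T := by exact_mod_cast (by omega : 1 ≤ T)
    have h3 : ((T + 1 : ℕ) : ℝ) ^ 3 ≤ 8 * (T : ℝ) ^ 3 := by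
      have h4 : ((T + 1 : ℕ) : ℝ) ≤ 2 * T := by
        push_cast
        linarith
      calc ((T + 1 : ℕ) : ℝ) ^ 3 ≤ (2 * (T : ℝ)) ^ 3 := pow_le_pow_left₀ (Nat.cast_nonneg _) h4 3
        _ = _ := by ring
    have hT3 : (0 : ℝ) < (T : ℝ) ^ 3 := by positivity
    rw [div_le_div_iff₀ hT3 hL]
    rw [le_div_iff₀ hL] at h1
    refine h1.trans ?_
    calc 144 * ((T + 1 : ℕ) : ℝ) ^ 3 ≤ 144 * (8 * (T : ℝ) ^ 3) :=
          mul_le_mul_of_nonneg_left h3 (by norm_num)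
      _ = _ := by ring
  · obtain ⟨C, hC⟩ := h k
    refine ⟨|C| * 8, by positivity, fun T hT => ?_⟩
    refine (hC (T + 1) (by omega)).trans ?_
    have hT1 : (1 : ℝ) ≤ T := by exact_mod_cast hT
    have h3 : ((T + 1 : ℕ) : ℝ) ^ 3 ≤ 8 * (T : ℝ) ^ 3 := by
      have h4 : ((T + 1 : ℕ) : ℝ) ≤ 2 * T := by
        push_cast
        linarith
      calc ((T + 1 : ℕ) : ℝ) ^ 3 ≤ (2 * (T : ℝ)) ^ 3 := pow_le_pow_left₀ (Nat.cast_nonneg _) h4 3
        _ = _ := by ring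
    calc C * ((T + 1 : ℕ) : ℝ) ^ 3 ≤ |C| * ((T + 1 : ℕ) : ℝ) ^ 3 :=
          mul_le_mul_of_nonneg_right (le_abs_self C) (by positivity)
      _ ≤ |C| * (8 * (T : ℝ) ^ 3) := mul_le_mul_of_nonneg_left h3 (abs_nonneg _)
      _ = _ := by ring

lemma Cc_mono {H H' : ℕ} (h : H ≤ H') : Cc 4 H ⊆ Cc 4 H' := by
  classical
  intro c hc
  have hZ : (H : ℤ) ≤ H' := by exact_mod_cast h
  unfold Cc at hc ⊢
  simp only [mem_filter, mem_product, mem_Icc] at hc ⊢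
  obtain ⟨⟨⟨h1, h2⟩, h3, h4⟩, h5, h6, h7, h8, h9⟩ := hc
  exact ⟨⟨⟨by linarith, by linarith⟩, by linarith, by linarith⟩, h5, by linarith, by linarith,
    h8, h9⟩

lemma T4X_card (T : ℕ) (hT : 1 ≤ T) : ((T4X (T + 1)).card : ℝ) ≤ 45 * (T : ℝ) ^ 3 := by
  classical
  have h1 : (T4X (T + 1)).card ≤ (2 * (T + 1) + 1) * (2 * (T + 1) ^ 2 + 1) := by
    unfold T4X
    refine (card_filter_le _ _).trans ?_
    rw [card_product, Int.card_Icc, Int.card_Icc]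
    have e1 : (((T + 1 : ℕ) : ℤ) + 1 - -((T + 1 : ℕ) : ℤ)).toNat = 2 * (T + 1) + 1 := by omega
    have e2 : (((T + 1 : ℕ) : ℤ) ^ 2 + 1 - -((T + 1 : ℕ) : ℤ) ^ 2).toNat =
        2 * (T + 1) ^ 2 + 1 := by
      have : (((T + 1 : ℕ) : ℤ) ^ 2) = (((T + 1) ^ 2 : ℕ) : ℤ) := by push_cast; rfl
      have h3 : -((T + 1 : ℕ) : ℤ) ^ 2 = -(((T + 1 : ℕ) : ℤ) ^ 2) := rfl
      rw [h3, this]
      omega
    rw [e1, e2]
  have hT1 : (1 : ℝ) ≤ T := by exact_mod_cast hT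
  have h2 : ((T4X (T + 1)).card : ℝ) ≤ (2 * ((T : ℝ) + 1) + 1) * (2 * ((T : ℝ) + 1) ^ 2 + 1) := by
    exact_mod_cast h1
  refine h2.trans ?_
  calc (2 * ((T : ℝ) + 1) + 1) * (2 * ((T : ℝ) + 1) ^ 2 + 1) ≤ (5 * T) * (9 * (T : ℝ) ^ 2) :=
        mul_le_mul (by linarith) (by nlinarith) (by positivity) (by positivity)
    _ = _ := by ring

lemma par4 : PARa (Cc 4) 12 (fun T => T4X (T + 1)) rkS rk4 := by
  obtain ⟨C, F, hF⟩ := Pool.Agent.L0h80.T8.par4c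
  refine ⟨C, F, fun H => ⟨(hF H).1, fun c hc => ?_⟩⟩
  obtain ⟨a1, a2, a3, a4, a5, a6⟩ := (hF H).2 c hc
  refine ⟨fun T hT => ?_, a6⟩
  rw [mem_T4X]
  refine ⟨⟨?_, ?_⟩, ?_⟩
  · exact ((Nat.pow_lt_pow_iff_left (by norm_num : 12 ≠ 0)).1 (lt_of_le_of_lt a4 hT)).le
  · have h5 : (T + 1) ^ 12 = ((T + 1) ^ 2) ^ 6 := by ring
    rw [h5] at hT
    exact ((Nat.pow_lt_pow_iff_left (by norm_num : 6 ≠ 0)).1 (lt_of_le_of_lt a5 hT)).le
  · unfold f4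
    refine mul_ne_zero (mul_ne_zero a1 a2) ?_
    intro h5
    exact a3 (by linarith)

/-- **M5** the curves with a point of order 4 -/
theorem s2_f4 (hAVG : S2_AVGW) (hRNK : S2_RNK) (hCORE : S2_CORE) (hTRV : S2_TRV)
    (hASM : S2_ASM) : S2_F4 :=
  hASM (Cc 4) (fun T => T4X (T + 1)) 12 3 rkS rk4 (by norm_num) (by norm_num)
    (fun _ _ h => Cc_mono h) ⟨45, fun T hT => T4X_card T hT⟩ par4 Pool.Agent.L0h80.T8.low4c
    (bxt4 (core4 hAVG hRNK hCORE hTRV))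

end Pool.Agent.L0h90.TU
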