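import Pool.Agent.L0h90.TU.AvgW
import Pool.Agent.L0h90.TU.CoreHyp
import Pool.Agent.L0h5.TE.W5

/-!
# Project TU, module M5: the pairs `(c, b)` for `Z/4`, the core (helper90)
-/

set_option autoImplicit false
set_option linter.unusedSectionVars false

namespace Pool.Agent.L0h90.TU

open Finset Pool.Agent.L0h5.TH Pool.Agent.L0h5.TU Pool.Agent.L0h5.TE
  Pool.Agent.L0h5.T4
open Pool.Agent.W262.RK hiding w4
open Pool.Agent.L0h5.TF hiding oo QF

/-- the classes -/
def q4 : Fin 3 → Fin 3 := ![0, 2, 1]

lemma q4_cast (j : Fin 3) : (q4 j).castSucc = cl4 j := by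
  revert j
  decide

lemma crit4 : CritA q4 (fun j => ev4 j && !(sp4 j)) := by
  have h : ∀ a : Fin 3, (univ.filter (fun j : Fin 3 => q4 j = a)).card <
      (univ.filter (fun j : Fin 3 => q4 j ≠ a ∧ (ev4 j && !(sp4 j)) = false)).card ∨
    ((univ.filter (fun j : Fin 3 => q4 j = a)).card =
      (univ.filter (fun j : Fin 3 => q4 j ≠ a ∧ (ev4 j && !(sp4 j)) = false)).card ∧
      ∃ j : Fin 3, (ev4 j && !(sp4 j)) = true) := by decide
  intro a _
  exact h a

/-- the local averages -/
noncomputable def lam4J (k : ℕ) : Fin 3 → ℕ → Vk k → Vk k → ℝ :=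
  lamRw (k := k) w4 q4 ev4 kp4 R4

/-- the sum over the states of one type -/
lemma sum_st4j {p : ℕ} (hp : p.Prime) (h2 : p ≠ 2)
    (F : (Bool → Bool → Bool → Bool → Prop) → ℝ) (j : Fin 3) :
    ∑ σ ∈ (univ : Finset (Fin 3 × Bool)).filter (fun σ => σ.1 = j), (1 / 2) * F (LS4 σ p) =
      w4 j * ∑ r ∈ R4 j p, F (LE (cl4 j) (ev4 j) (kp4 j r) false p) := by
  have hfil : ∑ σ ∈ (univ : Finset (Fin 3 × Bool)).filter (fun σ => σ.1 = j),
      (1 / 2) * F (LS4 σ p) = ∑ b : Bool, (1 / 2) * F (LS4 (j, b) p) := by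
    rw [sum_filter, Fintype.sum_prod_type, Finset.sum_eq_single j]
    · simp
    · intro i _ hi
      simp [hi]
    · intro h
      exact absurd (mem_univ _) h
  rw [hfil]
  have hj : j = 0 ∨ j = 1 ∨ j = 2 := by
    clear hfil
    revert j
    decide
  obtain ⟨h3, h4⟩ := R4_card hp h2
  rcases hj with rfl | rfl | rfl
  · have e0 : LS4 (0, false) p = LE (cl4 0) (ev4 0) (kp4 0 1) false p := by
      unfold LS4
      refine LE_sg (cl4_ne _) _ ?_ _ _
      simp [kap4, kp4]
    have e1 : LS4 (0, true) p = LE (cl4 0) (ev4 0) (kp4 0 (nN p)) false p := by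
      unfold LS4
      refine LE_sg (cl4_ne _) _ ?_ _ _
      simp [kap4, kp4, sg0_nr hp h2, sg0_nN hp h2]
    rw [Fintype.sum_bool, e0, e1, h3, sum_pair h4]
    have w0 : w4 0 = 1 / 2 := rfl
    rw [w0]
    ring
  · have e2 : ∀ b, LS4 (1, b) p = LE (cl4 1) (ev4 1) (kp4 1 1) false p := by
      intro b
      unfold LS4
      refine LE_sg (cl4_ne _) _ ?_ _ _
      simp [kap4, kp4]
    have h5 : R4 1 p = {1} := rfl
    have w1 : w4 1 = 1 := rfl
    simp only [Fintype.sum_bool, e2]
    rw [h5, sum_singleton, w1]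
    ring
  · have e3 : ∀ b, LS4 (2, b) p = LE (cl4 2) (ev4 2) (kp4 2 1) false p := by
      intro b
      unfold LS4
      refine LE_sg (cl4_ne _) _ ?_ _ _
      simp [kap4, kp4]
    have h6 : R4 2 p = {1} := rfl
    have w2 : w4 2 = 1 := rfl
    simp only [Fintype.sum_bool, e3]
    rw [h6, sum_singleton, w2]
    ring

/-- the hypotheses on the local averages -/
lemma hl4 {k z : ℕ} (hz : 2 ≤ z) : Hl (k := k) (J := Fin 3) (St := Fin 3 × Bool) 4 z
    (fun _ => univ) LS4 Prod.fst (lam4J k) where
  lam_eq := by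
    intro p hp hzp j v h
    have h2 : p ≠ 2 := by omega
    have h3 := sum_st4j hp h2 (fun L => ∏ i, iL L (v i) (h i)) j
    refine Eq.trans ?_ (Eq.trans h3.symm ?_)
    · unfold lam4J lamRw lamR
      congr 1
      refine sum_congr rfl fun r _ => ?_
      rw [q4_cast]
      exact lstE_sg (cl4_ne j) _ rfl false v h
    · refine sum_congr ?_ fun _ _ => rfl
      ext σ
      simp
  card_le := by
    intro p _ _
    rw [card_univ]
    simp
  xc := by
    intro p hp hzp σ _
    exact xc4 hp (by omega) σ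

/-- the average over the window for the pairs `(c, b)` -/
lemma avgW4 (hAVG : S2_AVGW) (k : ℕ) (hk : 1 ≤ k) :
    ∃ δ0 : ℝ, 0 < δ0 ∧ δ0 ≤ 1 / 2 ∧ ∃ z0 : ℕ, 8 ≤ z0 ∧ ∀ z, z0 ≤ z →
      ∃ C : ℝ, 0 ≤ C ∧ ∀ y, z < y →
        ∑ s ∈ @Finset.filter (Fin 3 → ℕ) (fun s => WinJ δ0 (Pool.Agent.L0h5.TT.LL y) (omJ s))
          (Classical.decPred _) (Tup (Fin 3) z y),
          GT (lam4J k) s * ∏ j, gw 1 4 (s j) ≤ C * (Real.log y) ^ 3 := by
  classical
  obtain ⟨δ0, h1, h2, z0, h3, h4⟩ := hAVG (Fin 3) w4 q4 ev4 sp4 w4_nn w4_le crit4 k 4 4 hk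
  refine ⟨δ0, h1, h2, z0 + 20, by omega, fun z hz => ?_⟩
  have hp2 : ∀ p : ℕ, z < p → p ≠ 2 := fun p hp => by omega
  obtain ⟨C1, hC1⟩ := mert1 4 z (by omega)
  obtain ⟨C2, hC2⟩ := mert2 4 z (by omega)
  have hR2 : ∀ p : ℕ, p.Prime → z < p → (R4 0 p).card = 2 := by
    intro p hp hzp
    obtain ⟨h3, h4⟩ := R4_card hp (hp2 p hzp)
    rw [h3, card_pair h4]
  have hR1 : ∀ (j : Fin 3) (p : ℕ), j ≠ 0 → R4 j p = {1} := by
    intro j p hj
    unfold R4
    rw [if_neg hj]
  have key := h4 z (by omega) kp4 R4 (|C1| + |C2|)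
    (fun p hp hzp => by
      rw [Fin.sum_univ_three, hR2 p hp hzp, hR1 1 p (by decide), hR1 2 p (by decide)]
      simp)
    (fun j y hy => by
      have h3 : ∑ p ∈ PS z y, w4 j * (((R4 j p).card : ℝ) / ((p : ℝ) - (4 : ℕ))) =
          ∑ p ∈ PS z y, 1 / ((p : ℝ) - (4 : ℕ)) := by
        refine sum_congr rfl fun p hp => ?_
        obtain ⟨⟨h4, -⟩, h5⟩ := mem_PS.1 hp
        by_cases hj : j = 0
        · subst hj
          rw [hR2 p h5 h4]
          have : w4 0 = 1 / 2 := rfl
          rw [this]
          push_cast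
          ring
        · rw [hR1 j p hj]
          have : w4 j = 1 := by
            have hj' : j = 1 ∨ j = 2 := by
              revert j
              decide
            rcases hj' with rfl | rfl <;> rfl
          rw [this, card_singleton]
          push_cast
          ring
      rw [h3]
      have h4 := hC1 y hy
      have h5 := le_abs_self C1
      have h6 := abs_nonneg C2
      linarith)
    (fun j y hy => by
      have hj : j = 0 ∨ j = 1 ∨ j = 2 := by
        revert j
        decide
      have h4 := hC1 y hy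
      have h5 := le_abs_self C1
      have h6 := abs_nonneg C2
      have h7 := le_abs_self C2
      have h8 := abs_nonneg C1
      rcases hj with rfl | rfl | rfl
      · have h3 : ∑ p ∈ PS z y, w4 0 * (((Rz kp4 R4 0 p).card : ℝ) / ((p : ℝ) - (4 : ℕ))) =
            (1 / 2) * ∑ p ∈ PS z y, 1 / ((p : ℝ) - (4 : ℕ)) := by
          rw [mul_sum]
          refine sum_congr rfl fun p hp => ?_
          obtain ⟨⟨h4, -⟩, h5⟩ := mem_PS.1 hp
          have h9 : Rz kp4 R4 0 p = {1} := by
            obtain ⟨h10, h11⟩ := R4_card h5 (hp2 p h4)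
            unfold Rz
            rw [h10]
            ext r
            rw [mem_filter, mem_insert, mem_singleton, mem_singleton]
            constructor
            · rintro ⟨h12 | h12, h13⟩
              · exact h12
              · exfalso
                rw [h12] at h13
                have h14 := sg0_nN h5 (hp2 p h4)
                have h15 : kp4 0 (nN p) 0 = (nN p : ℤ) := rfl
                rw [h15, h14] at h13
                exact absurd h13 (by decide)
            · rintro rfl
              refine ⟨Or.inl rfl, ?_⟩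
              have h15 : kp4 0 1 0 = 1 := rfl
              rw [h15, sg0_one]
          have : w4 0 = 1 / 2 := rfl
          rw [h9, this, card_singleton]
          push_cast
          ring
        rw [h3]
        have h9 : th (sp4 0) = 1 / 2 := by simp [th, sp4]
        rw [h9, ← mul_sub, abs_mul, abs_of_pos (by norm_num : (0 : ℝ) < 1 / 2)]
        have := abs_nonneg (∑ p ∈ PS z y, 1 / ((p : ℝ) - (4 : ℕ)) - Real.log (Real.log y))
        linarith
      · have h3 : ∑ p ∈ PS z y, w4 1 * (((Rz kp4 R4 1 p).card : ℝ) / ((p : ℝ) - (4 : ℕ))) =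
            ∑ p ∈ PS z y, 1 / ((p : ℝ) - (4 : ℕ)) := by
          refine sum_congr rfl fun p hp => ?_
          have h9 : Rz kp4 R4 1 p = {1} := by
            unfold Rz
            rw [hR1 1 p (by decide)]
            apply filter_true_of_mem
            intro r _
            have h15 : kp4 1 r 0 = 1 := rfl
            rw [h15, sg0_one]
          have : w4 1 = 1 := rfl
          rw [h9, this, card_singleton]
          push_cast
          ring
        rw [h3]
        have h9 : th (sp4 1) = 1 := by simp [th, sp4]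
        rw [h9, one_mul]
        linarith
      · have h3 : ∑ p ∈ PS z y, w4 2 * (((Rz kp4 R4 2 p).card : ℝ) / ((p : ℝ) - (4 : ℕ))) =
            ∑ p ∈ PS z y, (if sg0 p (-1) = false then (1 : ℝ) else 0) / ((p : ℝ) - (4 : ℕ)) := by
          refine sum_congr rfl fun p hp => ?_
          have h9 : ((Rz kp4 R4 2 p).card : ℝ) = if sg0 p (-1) = false then (1 : ℝ) else 0 := by
            unfold Rz
            rw [hR1 2 p (by decide), filter_singleton]
            have h15 : kp4 2 1 0 = -1 := rfl
            rw [h15]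
            split_ifs <;> simp
          have : w4 2 = 1 := rfl
          rw [h9, this, one_mul]
        rw [h3]
        have h9 : th (sp4 2) = 1 / 2 := by simp [th, sp4]
        rw [h9]
        have := hC2 y hy
        linarith)
  obtain ⟨C3, hC3, h5⟩ := key
  refine ⟨C3, hC3, fun y hy => ?_⟩
  have h6 := h5 y hy
  rw [Fintype.card_fin] at h6
  refine le_trans (le_of_eq ?_) h6
  refine sum_congr ?_ fun _ _ => rfl
  ext s
  simp only [mem_filter]

end Pool.Agent.L0h90.TU
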