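import Pool.Agent.L0h90.TU.F4a

/-!
# Project TU, module M5: the pairs `(c, b)` for `Z/4`, all moments over the typical pairs (helper90)
-/

set_option autoImplicit false
set_option linter.unusedSectionVars false

namespace Pool.Agent.L0h90.TU

open Finset Pool.Agent.L0h5.TH Pool.Agent.L0h5.TU Pool.Agent.L0h5.TE
  Pool.Agent.L0h5.T4
open Pool.Agent.W262.RK hiding w4 LL s2
open Pool.Agent.L0h5.TF hiding oo QF
open Pool.Agent.L0h5.TT (LL typ_bd)

/-- the three forms -/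
def F4j (t : ℤ × ℤ) : Fin 3 → ℤ := ![t.1, t.2, t.1 ^ 2 - 4 * t.2]

/-- typical pairs -/
def Typ4 (X : ℕ) (t : ℤ × ℤ) : Prop :=
  ∀ j, |(((F4j t j).natAbs.primeFactors.card : ℕ) : ℝ) - LL X| ≤ (LL X) ^ (3 / 4 : ℝ)

/-- the rank -/
noncomputable def rk4 (t : ℤ × ℤ) : ℕ :=
  Module.finrank ℤ (EAB (t.1 ^ 2) (t.1 ^ 2 - 4 * t.2)).toAffine.Point

lemma fin3 (j : Fin 3) : j = 0 ∨ j = 1 ∨ j = 2 := by
  revert j
  decide

lemma F4j_dvd (t : ℤ × ℤ) (j : Fin 3) : F4j t j ∣ f4 t := by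
  unfold f4
  rcases fin3 j with rfl | rfl | rfl
  · exact Dvd.dvd.mul_right (dvd_mul_right _ _) _
  · exact Dvd.dvd.mul_right (dvd_mul_left _ _) _
  · exact dvd_mul_left _ _

lemma F4j_ne {t : ℤ × ℤ} (h : f4 t ≠ 0) (j : Fin 3) : F4j t j ≠ 0 := fun h0 =>
  h (zero_dvd_iff.1 (h0 ▸ F4j_dvd t j))

/-- the type of a prime -/
lemma st4_type {t : ℤ × ℤ} {p : ℕ} (hp : p.Prime) (h : (p : ℤ) ∣ f4 t)
    (h2 : ¬ (p : ℤ) ^ 2 ∣ f4 t) (j : Fin 3) : (st4 t p).1 = j ↔ (p : ℤ) ∣ F4j t j := by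
  have hpi := Nat.prime_iff_prime_int.1 hp
  have hab : (p : ℤ) ∣ t.1 → (p : ℤ) ∣ t.2 → False := fun h3 h4 => h2 (by
    unfold f4
    rw [sq]
    exact Dvd.dvd.mul_right (mul_dvd_mul h3 h4) _)
  have had : (p : ℤ) ∣ t.1 → (p : ℤ) ∣ t.1 ^ 2 - 4 * t.2 → False := fun h3 h4 => h2 (by
    have e : f4 t = t.1 * (t.1 ^ 2 - 4 * t.2) * t.2 := by
      unfold f4
      ring
    rw [e, sq]
    exact Dvd.dvd.mul_right (mul_dvd_mul h3 h4) _)
  have hbd : (p : ℤ) ∣ t.2 → (p : ℤ) ∣ t.1 ^ 2 - 4 * t.2 → False := fun h3 h4 => h2 (by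
    have e : f4 t = t.2 * (t.1 ^ 2 - 4 * t.2) * t.1 := by
      unfold f4
      ring
    rw [e, sq]
    exact Dvd.dvd.mul_right (mul_dvd_mul h3 h4) _)
  have e0 : F4j t 0 = t.1 := rfl
  have e1 : F4j t 1 = t.2 := rfl
  have e2 : F4j t 2 = t.1 ^ 2 - 4 * t.2 := rfl
  by_cases ha : (p : ℤ) ∣ t.1
  · have hs : (st4 t p).1 = 0 := by
      unfold st4
      rw [if_pos ha]
    rw [hs]
    rcases fin3 j with rfl | rfl | rfl
    · rw [e0]
      exact ⟨fun _ => ha, fun _ => rfl⟩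
    · rw [e1]
      exact ⟨fun h => absurd h (by decide), fun h => (hab ha h).elim⟩
    · rw [e2]
      exact ⟨fun h => absurd h (by decide), fun h => (had ha h).elim⟩
  · by_cases hb : (p : ℤ) ∣ t.2
    · have hs : (st4 t p).1 = 1 := by
        unfold st4
        rw [if_neg ha, if_pos hb]
      rw [hs]
      rcases fin3 j with rfl | rfl | rfl
      · rw [e0]
        exact ⟨fun h => absurd h (by decide), fun h => (ha h).elim⟩
      · rw [e1]
        exact ⟨fun _ => hb, fun _ => rfl⟩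
      · rw [e2]
        exact ⟨fun h => absurd h (by decide), fun h => (hbd hb h).elim⟩
    · have hs : (st4 t p).1 = 2 := by
        unfold st4
        rw [if_neg ha, if_neg hb]
      rw [hs]
      rcases fin3 j with rfl | rfl | rfl
      · rw [e0]
        exact ⟨fun h => absurd h (by decide), fun h => (ha h).elim⟩
      · rw [e1]
        exact ⟨fun h => absurd h (by decide), fun h => (hb h).elim⟩
      · rw [e2]
        refine ⟨fun _ => ?_, fun _ => rfl⟩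
        unfold f4 at h
        rcases hpi.dvd_or_dvd h with h3 | h3
        · rcases hpi.dvd_or_dvd h3 with h4 | h4
          · exact (ha h4).elim
          · exact (hb h4).elim
        · exact h3

lemma s1_ne (z y : ℕ) (n : ℤ) : s1 z y n ≠ 0 := fun h =>
  PP_ne_zero z y (zero_dvd_iff.1 (h ▸ s1_dvd_PP z y n))

lemma s2_ne (z y : ℕ) (n : ℤ) : s2 z y n ≠ 0 := by
  classical
  unfold s2 Pool.Agent.W307.RT.S2
  exact prod_ne_zero_iff.2 fun p hp => (mem_PS.1 (mem_filter.1 hp).1).2.ne_zero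

/-- the comparison of the numbers of the primes -/
lemma cn_bd {z y X k' : ℕ} {t : ℤ × ℤ} (hy : 1 ≤ y) (h0 : f4 t ≠ 0)
    (hb : (f4 t).natAbs ≤ X ^ 8) (hX : X < (y + 1) ^ k') (j : Fin 3) :
    cnS Prod.fst (st4 t) (s1 z y (f4 t)) j ≤ (F4j t j).natAbs.primeFactors.card ∧
    (F4j t j).natAbs.primeFactors.card ≤ cnS Prod.fst (st4 t) (s1 z y (f4 t)) j +
      (z + (8 * k' + (s2 z y (f4 t)).primeFactors.card)) := by
  classical
  have hF := F4j_ne h0 j
  constructor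
  · unfold cnS
    refine card_le_card fun p hp => ?_
    rw [mem_filter] at hp
    have hpp := Nat.prime_of_mem_primeFactors hp.1
    obtain ⟨h1, h2, h3⟩ := (dvd_s1 hpp).1 (Nat.dvd_of_mem_primeFactors hp.1)
    exact Nat.mem_primeFactors.2 ⟨hpp, Int.natCast_dvd.1 ((st4_type hpp h2 h3 j).1 hp.2),
      Int.natAbs_ne_zero.2 hF⟩
  · set big := (f4 t).natAbs.primeFactors.filter (fun p => y < p) with hbig
    have hbc : big.card ≤ 8 * k' := by
      have h1 : (y + 1) ^ big.card ≤ ∏ p ∈ big, p := by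
        rw [← Finset.prod_const]
        apply Finset.prod_le_prod'
        intro p hp
        rw [hbig, mem_filter] at hp
        omega
      have h2 : ∏ p ∈ big, p ≤ ∏ p ∈ (f4 t).natAbs.primeFactors, p := by
        apply Finset.prod_le_prod_of_subset_of_one_le' (filter_subset _ _)
        intro p hp _
        exact (Nat.mem_primeFactors.mp hp).1.one_le
      have h3 : ∏ p ∈ (f4 t).natAbs.primeFactors, p ≤ (f4 t).natAbs :=
        Nat.le_of_dvd (Nat.pos_of_ne_zero (Int.natAbs_ne_zero.2 h0)) (Nat.prod_primeFactors_dvd _)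
      have h4 : X ^ 8 ≤ (y + 1) ^ (8 * k') := by
        rw [mul_comm 8 k', pow_mul]
        exact Nat.pow_le_pow_left hX.le 8
      have h5 : (y + 1) ^ big.card ≤ (y + 1) ^ (8 * k') :=
        h1.trans (h2.trans (h3.trans (hb.trans h4)))
      exact (Nat.pow_le_pow_iff_right (by omega)).1 h5
    have hsub : (F4j t j).natAbs.primeFactors ⊆
        ((s1 z y (f4 t)).primeFactors.filter (fun p => (st4 t p).1 = j)) ∪
          (Icc 1 z ∪ (big ∪ (s2 z y (f4 t)).primeFactors)) := by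
      intro p hp
      have hpp := Nat.prime_of_mem_primeFactors hp
      have hpd : (p : ℤ) ∣ F4j t j := Int.natCast_dvd.2 (Nat.dvd_of_mem_primeFactors hp)
      have hpf : (p : ℤ) ∣ f4 t := hpd.trans (F4j_dvd t j)
      rw [mem_union, mem_union, mem_union, mem_filter, mem_Icc]
      by_cases hz : p ≤ z
      · exact Or.inr (Or.inl ⟨hpp.one_le, hz⟩)
      · by_cases hyp : y < p
        · right
          right
          left
          rw [hbig, mem_filter]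
          exact ⟨Nat.mem_primeFactors.2 ⟨hpp, Int.natCast_dvd.1 hpf,
            Int.natAbs_ne_zero.2 h0⟩, hyp⟩
        · have hPS : p ∈ PS z y := mem_PS.2 ⟨⟨by omega, by omega⟩, hpp⟩
          by_cases h2 : (p : ℤ) ^ 2 ∣ f4 t
          · right
            right
            right
            exact Nat.mem_primeFactors.2 ⟨hpp, (dvd_s2 hpp).2 ⟨hPS, h2⟩, s2_ne _ _ _⟩
          · left
            exact ⟨Nat.mem_primeFactors.2 ⟨hpp, (dvd_s1 hpp).2 ⟨hPS, hpf, h2⟩, s1_ne _ _ _⟩,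
              (st4_type hpp hpf h2 j).2 hpd⟩
    have h1 := (card_le_card hsub).trans (card_union_le _ _)
    have h2 := card_union_le (Icc 1 z) (big ∪ (s2 z y (f4 t)).primeFactors)
    have h3 := card_union_le big (s2 z y (f4 t)).primeFactors
    have h4 : (Icc 1 z).card = z := by simp
    unfold cnS
    omega

/-- **all moments over the typical pairs** -/
theorem core4 (hAVG : S2_AVGW) (hRNK : S2_RNK) (hCORE : S2_CORE) (hTRV : S2_TRV) (k : ℕ) :
    ∃ C : ℝ, ∀ X : ℕ, 1 ≤ X →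
      ∑ t ∈ @Finset.filter (ℤ × ℤ) (Typ4 X) (Classical.decPred _) (T4X X),
        ((2 : ℝ) ^ rk4 t) ^ k ≤ C * (X : ℝ) ^ 3 := by
  classical
  suffices H : ∀ k : ℕ, 1 ≤ k → ∃ C : ℝ, ∀ X : ℕ, 1 ≤ X →
      ∑ t ∈ @Finset.filter (ℤ × ℤ) (Typ4 X) (Classical.decPred _) (T4X X),
        ((2 : ℝ) ^ rk4 t) ^ k ≤ C * (X : ℝ) ^ 3 by
    rcases Nat.eq_zero_or_pos k with rfl | hk
    · obtain ⟨C, hC⟩ := H 1 le_rfl
      refine ⟨C, fun X hX => (sum_le_sum fun t _ => ?_).trans (hC X hX)⟩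
      rw [pow_zero, pow_one]
      exact one_le_pow₀ (by norm_num)
    · exact H k hk
  intro k hk
  obtain ⟨δ0, hδ0, hδ2, z0, hz0, hA⟩ := avgW4 hAVG k hk
  obtain ⟨zc, hcnt0⟩ := Pool.Agent.L0h80.T4.cnt4
  obtain ⟨z, hz⟩ : ∃ z : ℕ, z = z0 + zc + 20 := ⟨_, rfl⟩
  have Hl4 := hl4 (k := k) (z := z) (by omega)
  obtain ⟨C0, hC0, hA'⟩ := hA z (by omega)
  obtain ⟨M, hM⟩ := hTRV (Fin 3) (Fin 3 × Bool) k 4 z (fun _ => univ) LS4 Prod.fst (lam4J k) Hl4
    (by omega) (by omega)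
  have hR := hRNK (Fin 3) (Fin 3 × Bool) k 4 z 3 δ0 (fun _ => univ) LS4 Prod.fst (lam4J k) Hl4
    (by omega) (by omega) hδ0 hδ2 ⟨C0, hC0, fun y hy => by
      refine le_trans (le_of_eq ?_) (hA' y hy)
      refine sum_congr ?_ fun _ _ => rfl
      ext s
      simp only [mem_filter]⟩
  have hδ3 : 0 < δ0 / 3 := by linarith
  obtain ⟨B, CB, hB1, hCB1, hBB⟩ := typ_bd M z hδ3
  obtain ⟨C, K, y0, hC, hK, hcnt⟩ := hcnt0 z (by omega)
  have hD1 : (1 : ℝ) ≤ 4 ^ 8 := by norm_num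
  have key := hCORE (Fin 3) (ℤ × ℤ) (Fin 3 × Bool) k 4 3 M z (fun _ => univ) LS4 Prod.fst
    (lam4J k) (δ0 / 3) (WX M (δ0 / 3)) Hl4 (by omega) hδ3 (by linarith)
    (fun X n => WX_nonneg _ _ _ _)
    (fun lm hlm => by
      obtain ⟨C1, hC1, h1⟩ := hR lm hlm
      obtain ⟨C2, hC2, h2⟩ := hM lm hlm
      exact ⟨C1 + 2 * C2, fun X y hzy hyX =>
        core_hyp Hl4 (by omega) (by omega) hC1 hC2 (fun X y hzy hyX hl => by
          refine le_trans (le_of_eq ?_) (h1 X y hzy hyX hl)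
          refine sum_congr ?_ fun _ _ => rfl
          ext s
          simp only [mem_filter]) h2 X y hzy hyX⟩)
    T4X Typ4 (fun X => (X : ℝ) ^ 3) f4 st4 rk4 (4 ^ (z + 2)) (4 ^ 8) C CB (B ^ 8) K (y0 + 2)
    (fun X Y hXY t ht => by
      rw [mem_T4X] at ht ⊢
      exact ⟨⟨ht.1.1.trans hXY, ht.1.2.trans (Nat.pow_le_pow_left hXY 2)⟩, ht.2⟩)
    (fun X hX => one_le_pow₀ (by exact_mod_cast hX))
    (fun X t ht => (mem_T4X.1 ht).2) (fun X t _ p _ _ _ _ => mem_univ _)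
    (by positivity) hD1 hC hCB1 (one_le_pow₀ hB1) hK ?_ ?_ ?_
  · obtain ⟨C2, hC2⟩ := key
    refine ⟨C2, fun X hX => ?_⟩
    refine le_trans (le_of_eq ?_) (hC2 X hX)
    refine sum_congr ?_ fun _ _ => rfl
    ext s
    simp only [mem_filter]
  · intro X y k' hy hzy hyX hXk t ht
    obtain ⟨⟨h3, h4⟩, h5⟩ := mem_T4X.1 ht
    exact Pool.Agent.L0h80.T4.rank4 z y X k' 8 t (by omega) h5 (f4_bd (by omega) h3 h4)
      (by norm_num) hXk
  · intro X y k' hy hzy hyX hXk t ht hty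
    obtain ⟨⟨h3, h4⟩, h5⟩ := mem_T4X.1 ht
    have hlX1 : 1 ≤ Real.log X := (Pool.Agent.W262.RK.AT.one_le_log (z := z) (by omega) hzy).trans
      (Real.log_le_log (by exact_mod_cast (by omega : 0 < y)) (by exact_mod_cast hyX))
    have h6 := one_le_WX (J := Fin 3) (M := M) hB1 hCB1 hBB hlX1
      (n := cnS Prod.fst (st4 t) (s1 z y (f4 t)))
      (m := fun j => (F4j t j).natAbs.primeFactors.card)
      (E := 8 * k' + (s2 z y (f4 t)).primeFactors.card)
      (fun j => cn_bd (by omega) h5 (f4_bd (by omega) h3 h4) hXk j) hty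
    refine h6.trans (mul_le_mul_of_nonneg_right (mul_le_mul_of_nonneg_left ?_ (by linarith))
      (WX_nonneg _ _ _ _))
    rw [← pow_mul]
    exact pow_le_pow_right₀ hB1 (by omega)
  · intro X y Y k' hy hzy hyX hXk s v u hs hv hu hsvu hcop T' hT' hT hst
    have h3 := hcnt X y Y (by omega) hzy hyX s v u hs hv hu hsvu hcop T' (fun t ht => by
      obtain ⟨⟨h3, h4⟩, h5⟩ := mem_T4X.1 (hT' ht)
      exact ⟨h3, h4, h5, hT t ht⟩) hst
    have hgs := Pool.Agent.L0h5.TF.gw_nonneg (c := 4) (by omega) hs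
    have hgv := Pool.Agent.L0h5.TF.gw_nonneg (c := 4) (by omega) hv
    have hl : 0 ≤ (Real.log y) ^ 3 := pow_nonneg (Real.log_natCast_nonneg y) _
    set R : ℝ := ((1 / 2) ^ s.primeFactors.card * gw 1 4 s) *
      ((4 : ℝ) ^ v.primeFactors.card * (gw 1 4 v / v)) *
      ((4 : ℝ) ^ u.primeFactors.card / u) / (Real.log y) ^ 3 with hR
    have hR0 : 0 ≤ R := by
      rw [hR]
      positivity
    have h4 : (T'.card : ℝ) ≤ C * (X : ℝ) ^ 3 * R := by
      refine h3.trans (le_of_eq ?_)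
      rw [hR]
      ring
    have h5 : (1 : ℝ) ≤ (4 ^ 8) ^ k' := one_le_pow₀ hD1
    have h6 : C * (X : ℝ) ^ 3 ≤ C * (4 ^ 8) ^ k' * (X : ℝ) ^ 3 := by
      have : 0 ≤ C * (X : ℝ) ^ 3 := by positivity
      nlinarith
    refine h4.trans ((mul_le_mul_of_nonneg_right h6 hR0).trans (le_of_eq ?_))
    rw [hR]
    push_cast
    ring

end Pool.Agent.L0h90.TU
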