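import Pool.Agent.L0h90.TU.F4b
import Pool.Agent.L0h71.TT.Typ

/-!
# Project TU, module M5: almost all pairs `(c, b)` are typical (helper90)
-/

set_option autoImplicit false
set_option linter.unusedSectionVars false

namespace Pool.Agent.L0h90.TU

open Finset Pool.Agent.L0h5.TE Pool.Agent.L0h5.T4
open Pool.Agent.L0h5.TT (LL)

/-- the values at which a linear form is not typical -/
noncomputable def Bd (X : ℕ) (a b : ℤ) (Y t : ℕ) : Finset ℕ :=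
  (Icc 1 Y).filter (fun x : ℕ => a * x + b * t ≠ 0 ∧
    ¬ |(((a * x + b * t).natAbs.primeFactors.card : ℕ) : ℝ) - LL X| ≤ (LL X) ^ (3 / 4 : ℝ))

lemma mem_Bd {X : ℕ} {a b : ℤ} {Y t x : ℕ} : x ∈ Bd X a b Y t ↔ (1 ≤ x ∧ x ≤ Y) ∧
    a * x + b * t ≠ 0 ∧
    ¬ |(((a * x + b * t).natAbs.primeFactors.card : ℕ) : ℝ) - LL X| ≤ (LL X) ^ (3 / 4 : ℝ) := by
  unfold Bd
  rw [mem_filter, mem_Icc]

/-- the first coordinates in `B`, up to sign -/
noncomputable def Sf (B : Finset ℕ) (D : Finset ℤ) : Finset (ℤ × ℤ) :=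
  (B ×ˢ D).image (fun w => ((w.1 : ℤ), w.2)) ∪ (B ×ˢ D).image (fun w => (-(w.1 : ℤ), w.2))

lemma card_Sf (B : Finset ℕ) (D : Finset ℤ) : (Sf B D).card ≤ 2 * (B.card * D.card) := by
  unfold Sf
  refine (card_union_le _ _).trans ?_
  have h1 : ((B ×ˢ D).image (fun w => ((w.1 : ℤ), w.2))).card ≤ B.card * D.card :=
    card_image_le.trans (le_of_eq (card_product _ _))
  have h2 : ((B ×ˢ D).image (fun w => (-(w.1 : ℤ), w.2))).card ≤ B.card * D.card :=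
    card_image_le.trans (le_of_eq (card_product _ _))
  omega

lemma mem_Sf {B : Finset ℕ} {D : Finset ℤ} {t : ℤ × ℤ} (h1 : t.1.natAbs ∈ B) (h2 : t.2 ∈ D) :
    t ∈ Sf B D := by
  unfold Sf
  rw [mem_union, mem_image, mem_image]
  rcases Int.natAbs_eq t.1 with h | h
  · left
    exact ⟨(t.1.natAbs, t.2), mem_product.2 ⟨h1, h2⟩, Prod.ext h.symm rfl⟩
  · right
    exact ⟨(t.1.natAbs, t.2), mem_product.2 ⟨h1, h2⟩, Prod.ext h.symm rfl⟩

/-- the second coordinates in `Bp c` or minus `Bm c` -/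
noncomputable def Ss (D : Finset ℤ) (Bp Bm : ℤ → Finset ℕ) : Finset (ℤ × ℤ) :=
  D.biUnion (fun c => (Bp c).image (fun x : ℕ => (c, (x : ℤ))) ∪
    (Bm c).image (fun x : ℕ => (c, -(x : ℤ))))

lemma card_Ss (D : Finset ℤ) (Bp Bm : ℤ → Finset ℕ) {r : ℝ}
    (h1 : ∀ c ∈ D, ((Bp c).card : ℝ) ≤ r) (h2 : ∀ c ∈ D, ((Bm c).card : ℝ) ≤ r) :
    ((Ss D Bp Bm).card : ℝ) ≤ D.card * (2 * r) := by
  have h3 : (Ss D Bp Bm).card ≤ ∑ c ∈ D, ((Bp c).card + (Bm c).card) := by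
    unfold Ss
    refine card_biUnion_le.trans (sum_le_sum fun c _ => ?_)
    refine (card_union_le _ _).trans ?_
    have h4 : ((Bp c).image (fun x : ℕ => (c, (x : ℤ)))).card ≤ (Bp c).card := card_image_le
    have h5 : ((Bm c).image (fun x : ℕ => (c, -(x : ℤ)))).card ≤ (Bm c).card := card_image_le
    omega
  have h4 : ((Ss D Bp Bm).card : ℝ) ≤ ∑ c ∈ D, (((Bp c).card : ℝ) + (Bm c).card) := by
    exact_mod_cast h3
  refine h4.trans ?_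
  rw [← nsmul_eq_mul, ← sum_const]
  refine sum_le_sum fun c hc => ?_
  have := h1 c hc
  have := h2 c hc
  linarith

lemma mem_Ss {D : Finset ℤ} {Bp Bm : ℤ → Finset ℕ} {t : ℤ × ℤ} (h1 : t.1 ∈ D)
    (h2 : 0 ≤ t.2 → t.2.natAbs ∈ Bp t.1) (h3 : t.2 ≤ 0 → t.2.natAbs ∈ Bm t.1) :
    t ∈ Ss D Bp Bm := by
  unfold Ss
  rw [mem_biUnion]
  refine ⟨t.1, h1, ?_⟩
  rw [mem_union, mem_image, mem_image]
  rcases le_total 0 t.2 with h | h
  · left
    exact ⟨t.2.natAbs, h2 h, Prod.ext rfl (by simp only; omega)⟩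
  · right
    exact ⟨t.2.natAbs, h3 h, Prod.ext rfl (by simp only; omega)⟩

/-- the number of the pairs that are not typical -/
lemma typ4_card : ∃ X0 : ℕ, 16 ≤ X0 ∧ ∀ X : ℕ, X0 ≤ X →
    ((@Finset.filter (ℤ × ℤ) (fun t => ¬ Typ4 X t) (Classical.decPred _) (T4X X)).card : ℝ) ≤
      144 * (X : ℝ) ^ 3 / (LL X) ^ (1 / 2 : ℝ) := by
  classical
  obtain ⟨XA, hA16, hA⟩ := Pool.Agent.L0h71.TT.bad (a := 1) one_ne_zero 0
  obtain ⟨XB, -, hB⟩ := Pool.Agent.L0h71.TT.bad (a := -4) (by norm_num) 1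
  obtain ⟨XC, -, hCC⟩ := Pool.Agent.L0h71.TT.bad (a := 4) (by norm_num) 1
  refine ⟨XA + XB + XC, by omega, fun X hX => ?_⟩
  have hX1 : 1 ≤ X := by omega
  have hXX : X ≤ X ^ 2 := by nlinarith
  have hXR : (1 : ℝ) ≤ X := by exact_mod_cast hX1
  set L : ℝ := (LL X) ^ (1 / 2 : ℝ) with hL
  have hL0 : 0 ≤ L := by
    rw [hL]
    apply Real.rpow_nonneg
    unfold Pool.Agent.L0h5.TT.LL
    apply Real.log_nonneg
    have h2 : Real.exp 1 ≤ X := by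
      have := Real.exp_one_lt_d9
      have : (16 : ℝ) ≤ X := by exact_mod_cast (by omega : 16 ≤ X)
      linarith
    have := Real.log_le_log (Real.exp_pos 1) h2
    rwa [Real.log_exp] at this
  have b0 : ((Bd X 1 0 X 0).card : ℝ) ≤ 8 * X / L :=
    hA X (by omega) X 0 le_rfl hXX (Nat.zero_le _)
  have eX : ((X ^ 2 : ℕ) : ℝ) = (X : ℝ) ^ 2 := by push_cast; rfl
  have b1 : ((Bd X 1 0 (X ^ 2) 0).card : ℝ) ≤ 8 * (X : ℝ) ^ 2 / L := by
    have := hA X (by omega) (X ^ 2) 0 hXX le_rfl (Nat.zero_le _)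
    rw [eX] at this
    exact this
  set D1 : Finset ℤ := Icc (-(X : ℤ)) X with hD1
  set D2 : Finset ℤ := Icc (-((X : ℤ) ^ 2)) ((X : ℤ) ^ 2) with hD2
  have hc1 : (D1.card : ℝ) ≤ 3 * X := by
    have h1 : D1.card = 2 * X + 1 := by
      rw [hD1, Int.card_Icc]
      omega
    rw [h1]
    push_cast
    linarith
  have hc2 : (D2.card : ℝ) ≤ 3 * (X : ℝ) ^ 2 := by
    have h1 : D2.card = 2 * X ^ 2 + 1 := by
      rw [hD2, Int.card_Icc]
      have : ((X : ℤ) ^ 2) = ((X ^ 2 : ℕ) : ℤ) := by push_cast; rfl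
      rw [this]
      omega
    rw [h1]
    push_cast
    nlinarith
  have hsq : ∀ c ∈ D1, c.natAbs ^ 2 ≤ X ^ 2 := by
    intro c hc
    rw [hD1, mem_Icc] at hc
    exact Nat.pow_le_pow_left (by omega) 2
  have bm : ∀ c ∈ D1, ((Bd X (-4) 1 (X ^ 2) (c.natAbs ^ 2)).card : ℝ) ≤
      8 * (X : ℝ) ^ 2 / L := by
    intro c hc
    have := hB X (by omega) (X ^ 2) (c.natAbs ^ 2) hXX le_rfl (hsq c hc)
    rw [eX] at this
    exact this
  have bp : ∀ c ∈ D1, ((Bd X 4 1 (X ^ 2) (c.natAbs ^ 2)).card : ℝ) ≤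
      8 * (X : ℝ) ^ 2 / L := by
    intro c hc
    have := hCC X (by omega) (X ^ 2) (c.natAbs ^ 2) hXX le_rfl (hsq c hc)
    rw [eX] at this
    exact this
  have hsub : @Finset.filter (ℤ × ℤ) (fun t => ¬ Typ4 X t) (Classical.decPred _) (T4X X) ⊆
      Sf (Bd X 1 0 X 0) D2 ∪ (Ss D1 (fun _ => Bd X 1 0 (X ^ 2) 0) (fun _ => Bd X 1 0 (X ^ 2) 0) ∪
        Ss D1 (fun c => Bd X (-4) 1 (X ^ 2) (c.natAbs ^ 2))
          (fun c => Bd X 4 1 (X ^ 2) (c.natAbs ^ 2))) := by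
    intro t ht
    simp only [mem_filter, mem_T4X] at ht
    obtain ⟨⟨⟨h1, h2⟩, h3⟩, h4⟩ := ht
    have ht1 : t.1 ∈ D1 := by
      rw [hD1, mem_Icc]
      omega
    have ht2 : t.2 ∈ D2 := by
      rw [hD2, mem_Icc]
      have : ((X : ℤ) ^ 2) = ((X ^ 2 : ℕ) : ℤ) := by push_cast; rfl
      rw [this]
      omega
    have hn0 := F4j_ne h3 0
    have hn1 := F4j_ne h3 1
    have hn2 := F4j_ne h3 2
    have e0 : F4j t 0 = t.1 := rfl
    have e1 : F4j t 1 = t.2 := rfl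
    have e2 : F4j t 2 = t.1 ^ 2 - 4 * t.2 := rfl
    rw [e0] at hn0
    rw [e1] at hn1
    rw [e2] at hn2
    unfold Typ4 at h4
    push Not at h4
    obtain ⟨j, hj⟩ := h4
    rw [mem_union, mem_union]
    rcases fin3 j with rfl | rfl | rfl
    · left
      have e : (1 : ℤ) * ((t.1.natAbs : ℕ) : ℤ) + 0 * ((0 : ℕ) : ℤ) = ((t.1.natAbs : ℕ) : ℤ) := by
        ring
      refine mem_Sf (mem_Bd.2 ⟨⟨by omega, h1⟩, ?_, ?_⟩) ht2
      · rw [e]
        exact_mod_cast Int.natAbs_ne_zero.2 hn0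
      · rw [not_le, e, Int.natAbs_natCast]
        exact hj
    · right
      left
      have e : (1 : ℤ) * ((t.2.natAbs : ℕ) : ℤ) + 0 * ((0 : ℕ) : ℤ) = ((t.2.natAbs : ℕ) : ℤ) := by
        ring
      have key : t.2.natAbs ∈ Bd X 1 0 (X ^ 2) 0 := by
        refine mem_Bd.2 ⟨⟨by omega, h2⟩, ?_, ?_⟩
        · rw [e]
          exact_mod_cast Int.natAbs_ne_zero.2 hn1
        · rw [not_le, e, Int.natAbs_natCast]
          exact hj
      exact mem_Ss ht1 (fun _ => key) (fun _ => key)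
    · right
      right
      have hs : ((t.1.natAbs ^ 2 : ℕ) : ℤ) = t.1 ^ 2 := by
        push_cast
        exact sq_abs t.1
      refine mem_Ss ht1 (fun h0 => ?_) (fun h0 => ?_)
      · have e : (-4 : ℤ) * ((t.2.natAbs : ℕ) : ℤ) + 1 * ((t.1.natAbs ^ 2 : ℕ) : ℤ) =
            t.1 ^ 2 - 4 * t.2 := by
          rw [hs, Int.natAbs_of_nonneg h0]
          ring
        refine mem_Bd.2 ⟨⟨by omega, h2⟩, ?_, ?_⟩
        · rw [e]
          exact hn2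
        · rw [not_le, e]
          exact hj
      · have e : (4 : ℤ) * ((t.2.natAbs : ℕ) : ℤ) + 1 * ((t.1.natAbs ^ 2 : ℕ) : ℤ) =
            t.1 ^ 2 - 4 * t.2 := by
          rw [hs, Int.ofNat_natAbs_of_nonpos h0]
          ring
        refine mem_Bd.2 ⟨⟨by omega, h2⟩, ?_, ?_⟩
        · rw [e]
          exact hn2
        · rw [not_le, e]
          exact hj
  have h1 := (card_le_card hsub).trans (card_union_le _ _)
  have h2 := card_union_le (Ss D1 (fun _ => Bd X 1 0 (X ^ 2) 0) (fun _ => Bd X 1 0 (X ^ 2) 0))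
    (Ss D1 (fun c => Bd X (-4) 1 (X ^ 2) (c.natAbs ^ 2)) (fun c => Bd X 4 1 (X ^ 2) (c.natAbs ^ 2)))
  have h3 := card_Sf (Bd X 1 0 X 0) D2
  have h4 := card_Ss D1 (fun _ => Bd X 1 0 (X ^ 2) 0) (fun _ => Bd X 1 0 (X ^ 2) 0)
    (fun _ _ => b1) (fun _ _ => b1)
  have h5 := card_Ss D1 (fun c => Bd X (-4) 1 (X ^ 2) (c.natAbs ^ 2))
    (fun c => Bd X 4 1 (X ^ 2) (c.natAbs ^ 2)) bm bp
  have h6 : ((@Finset.filter (ℤ × ℤ) (fun t => ¬ Typ4 X t) (Classical.decPred _)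
      (T4X X)).card : ℝ) ≤ 2 * ((Bd X 1 0 X 0).card * D2.card) + D1.card *
        (2 * (8 * (X : ℝ) ^ 2 / L)) + D1.card * (2 * (8 * (X : ℝ) ^ 2 / L)) := by
    have h7 : ((@Finset.filter (ℤ × ℤ) (fun t => ¬ Typ4 X t) (Classical.decPred _)
      (T4X X)).card : ℝ) ≤ 2 * ((Bd X 1 0 X 0).card * D2.card) +
      ((Ss D1 (fun _ => Bd X 1 0 (X ^ 2) 0) (fun _ => Bd X 1 0 (X ^ 2) 0)).card : ℝ) +
      ((Ss D1 (fun c => Bd X (-4) 1 (X ^ 2) (c.natAbs ^ 2))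
        (fun c => Bd X 4 1 (X ^ 2) (c.natAbs ^ 2))).card : ℝ) := by
      exact_mod_cast (by omega : (@Finset.filter (ℤ × ℤ) (fun t => ¬ Typ4 X t)
        (Classical.decPred _) (T4X X)).card ≤ 2 * ((Bd X 1 0 X 0).card * D2.card) +
        (Ss D1 (fun _ => Bd X 1 0 (X ^ 2) 0) (fun _ => Bd X 1 0 (X ^ 2) 0)).card +
        (Ss D1 (fun c => Bd X (-4) 1 (X ^ 2) (c.natAbs ^ 2))
          (fun c => Bd X 4 1 (X ^ 2) (c.natAbs ^ 2))).card)
    linarith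
  refine h6.trans ?_
  have hr : 0 ≤ 8 * (X : ℝ) ^ 2 / L := by positivity
  have h7 : ((Bd X 1 0 X 0).card : ℝ) * D2.card ≤ (8 * X / L) * (3 * (X : ℝ) ^ 2) :=
    mul_le_mul b0 hc2 (Nat.cast_nonneg _) (by positivity)
  have h8 : (D1.card : ℝ) * (2 * (8 * (X : ℝ) ^ 2 / L)) ≤ (3 * X) * (2 * (8 * (X : ℝ) ^ 2 / L)) :=
    mul_le_mul_of_nonneg_right hc1 (by linarith)
  have h9 : 144 * (X : ℝ) ^ 3 / L = 2 * ((8 * X / L) * (3 * (X : ℝ) ^ 2)) +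
      (3 * X) * (2 * (8 * (X : ℝ) ^ 2 / L)) + (3 * X) * (2 * (8 * (X : ℝ) ^ 2 / L)) := by ring
  rw [h9]
  linarith

end Pool.Agent.L0h90.TU
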